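import Pool.Agent.Q161.ESM.Stm4

/-!
# Project ESG (helper161), part 3: elliptic curves over the Galois number fields of odd degree

`F` a number field, Galois of odd degree over `ℚ`; `E : y² = x³ + A x + B`, `A, B` integral in `F`, the cubic irreducible
over `F`, `L = F(θ)`, `θ` a zero of it; the twists `E_D : y² = x³ + A D² x + B D³` by the squarefree integers `D`.
`E_D(F)/2 → L^*/L^*²`, `(x, y) ↦ x - D θ`, is injective and its values satisfy the local conditions `Gd1` of part 1, with
`Bs = F`.  Everything here is elementary (valuations of `K`, no completions).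
-/

set_option autoImplicit false

namespace Pool.Agent.Q161.ESG

open Polynomial NumberField IsDedekindDomain

open scoped Classical

open Pool.Agent.Q161.ESM

/-- the curve `y² = x³ + A x + B` over the field `F` -/
def shF {F : Type} [Field F] (A B : F) : WeierstrassCurve F := ⟨0, 0, 0, A, B⟩

/-- the function `x - ϑ` on the points over `F` -/
noncomputable def xt {F L : Type} [Field F] [Field L] [Algebra F L] (A B : F) (ϑ : L) :
    (shF A B).toAffine.Point → L
  | .zero => 1
  | .some x _ _ => algebraMap F L x - ϑ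

/-- JOB XTI. The kernel of `P ↦ x(P) - ϑ`.
Proof.  Homomorphism: if `P + Q + R = 0` lie on the line `y = λ x + μ` then `(x1 - ϑ)(x2 - ϑ)(x3 - ϑ) = (λ ϑ + μ)²` (special
cases: vertical lines; use the addition formulas of Mathlib), so `δ(P) δ(Q)` is a square times `δ(P - Q)`.  Kernel: let
`x - ϑ = η²`, `η ∈ L` (`P = (x, y)`; `P = 0` is clear).  Over a splitting field `M ⊇ L` of the cubic let `ϑ = e1, e2, e3` be its
zeros (different), `r_i` = the images of `η` under the three embeddings `L → M` over `F` with `ϑ ↦ e_i`, `r_i² = x - e_i`,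
`(r1 r2 r3)² = y²`, so after replacing `η` by `-η` `r1 r2 r3 = y` (or `-y`, whichever is needed).  The elementary symmetric
functions of the `r_i` are in `F` (trace, norm etc. of `η`), so `R = (x + r1 r2 + r1 r3 + r2 r3, ± (r1 + r2)(r1 + r3)(r2 + r3))`
is a point over `F` and `P = R + R`; compare `IsR.halve` in `Pool/Agent/TH841/SH/Alg.lean` (which may be used over `M`,
with the injection of the points over `F` into the points over `M`). -/
def S_XTI : Prop := ∀ (F L : Type) [Field F] [CharZero F] [Field L] [Algebra F L] (A B : F) (ϑ : L),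
  Irreducible (X ^ 3 + C A * X + C B : F[X]) →
  ϑ ^ 3 + algebraMap F L A * ϑ + algebraMap F L B = 0 → Module.finrank F L = 3 →
  ∀ P Q : (shF A B).toAffine.Point, IsSquare (xt A B ϑ P * xt A B ϑ Q) →
    ∃ R : (shF A B).toAffine.Point, P = Q + (R + R)

/-- JOB XTF. Representatives (from `S_XTI`).
Proof: Mordell-Weil: `Pool.Agent.Q286.EQ.mordell_weil`.  For a finitely generated abelian group `M` of rank `ρ`
`M/2M` has at least `2^ρ` elements. -/
def S_XTF : Prop := ∀ (F L : Type) [Field F] [NumberField F] [Field L] [Algebra F L] (A B : F) (ϑ : L),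
  Irreducible (X ^ 3 + C A * X + C B : F[X]) →
  ϑ ^ 3 + algebraMap F L A * ϑ + algebraMap F L B = 0 → Module.finrank F L = 3 →
  ∃ S : Finset (shF A B).toAffine.Point,
    2 ^ Module.finrank ℤ (shF A B).toAffine.Point ≤ S.card ∧
    ∀ P ∈ S, ∀ Q ∈ S, P ≠ Q → ¬ IsSquare (xt A B ϑ P * xt A B ϑ Q)

/-- JOB LCF. The local conditions.
Proof.  `B` is divisible by 2, the ramified primes of `K` and a multiple of the discriminant `4 a³ + 27 b²` (in `𝓞 F`,
nonzero): for `l ∤ B`, `w` above `l`, and `ι ≠ ι'` with the same restriction to `F`, `ι θ - ι' θ` is a unit at `w`.  `P = 0`: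
`δ = 1`, `e = 0`, `uu = 1`.  `P = (x, y)`: `y ≠ 0` (the twisted cubic is irreducible).  For an embedding `τ : F → K` let `x_τ = τ x`,
`y_τ = τ y`; `y_τ² = ∏_{ι | F = τ} (x_τ - D ι θ)`, `ι δ = x_τ - D ι θ`; let `v` be the additive valuation at `w`, `v(l) = 1`.
`l ∤ D`: if `v(x_τ) < 0` then `v(ι δ) = v(x_τ)` for the three `ι` over `τ` and `2 v(y_τ) = 3 v(x_τ)`; if `v(x_τ) ≥ 0` then at most
one of the three `v(ι δ) ≥ 0` is positive (the differences are units), and the sum is `2 v(y_τ)`; so all are even.
`l ∣ D` (so `v(D) = 1`), `F` a Frobenius element at `w`.  Let `n = v(x_τ)`.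
(1) `n < 1`: `v(ι δ) = n`, `3 n = 2 v(y_τ)`, so `n` is even; `e ι = 0` for the three `ι` over `τ`; `uu ι = 1`;
`ι δ = x_τ (1 - D ι θ/x_τ)` and `y_τ² = x_τ³ (1 + ..)`, so `ι δ = (y_τ/x_τ)² (1 + m)`, `v(m) > 0`.
(2) `n ≥ 1`: `x_τ = D x'`, `v(x') ≥ 0`, `y_τ² = D³ ∏ (x' - ι θ)`, so `∑ v(x' - ι θ)` is odd; at most one term is positive, so
exactly one, for `ι = ι0`, and it is odd.  `e ι0 = 0`, `e ι = 1` for the two other `ι` over `τ`.  For these `v(ι δ) = 1`,
`ι δ D uu ι = D² (x' - ι θ) (ι0 θ - ι θ) = (D (ι0 θ - ι θ))² (1 + m)`.  `v(ι0 δ)` is even and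
`ι0 δ uu ι0 = y_τ² / (D² ∏_{ι ≠ ι0} (x' - ι θ)) * ∏_{ι ≠ ι0} (ι0 θ - ι θ) = (y_τ/D)² (1 + m)`.
So `ι δ D^(e ι) uu ι = r_ι² (1 + m_ι)` with `r_(F ι) = F r_ι` (`w` is stable under `F`, so the case and `ι0` are equivariant), and for
`A` stable under `F` `r = ∏_A r_ι` satisfies `F r = r`; choose `k` with `v(r l^k) = 0`: `(r l^k)^(l-1) ≡ 1` modulo `w`, as `F z ≡ z^l`
for the elements `z` integral at `w` (quotients of elements of `𝓞 K` with denominator prime to `w`). -/
def S_LCF : Prop := ∀ (F L : Type) [Field F] [NumberField F] [Field L] [NumberField L] [Algebra F L]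
  (a b : 𝓞 F) (th : 𝓞 L), Irreducible (X ^ 3 + C (a : F) * X + C (b : F) : F[X]) →
  (th : L) ^ 3 + algebraMap F L a * (th : L) + algebraMap F L b = 0 → Module.finrank F L = 3 →
  ∀ (K : Type) [Field K] [NumberField K] [IsGalois ℚ K], Nonempty (L →+* K) →
  ∃ B : ℕ, B ≠ 0 ∧ ∀ D : ℤ, Squarefree D →
    ∀ P : (shF ((a : F) * (D : F) ^ 2) ((b : F) * (D : F) ^ 3)).toAffine.Point,
      Gd1 K (algebraMap F L) th B D
        (xt ((a : F) * (D : F) ^ 2) ((b : F) * (D : F) ^ 3) ((D : L) * (th : L)) P)

/-- JOB DAT. The blocks.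
Proof.  `L = Bs(θ)`.  An embedding `τ : Bs → K` of the block extends to an embedding of `L` (if it is the restriction of
one embedding; in general: `Gal(K/ℚ)` is transitive on the embeddings of `Bs`, and one of them is the restriction of an
embedding of `L`), and the number of the extensions is `[L : Bs]`, since `K` is normal over `ℚ`. -/
def S_DAT : Prop := ∀ (Bs L : Type) [Field Bs] [NumberField Bs] [Field L] [NumberField L] [Algebra Bs L]
  (p : Bs[X]) (th : 𝓞 L), Irreducible p → aeval (th : L) p = 0 →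
  Module.finrank Bs L = p.natDegree → Odd p.natDegree →
  ∀ (K : Type) [Field K] [NumberField K] [IsGalois ℚ K], Nonempty (L →+* K) →
    Dat K (algebraMap Bs L) th

/-- JOB KXN. A Galois number field which contains given number fields (compare `S_KX`, `Pool/Agent/Q149/ESM`): the
normal closure of a compositum in `AlgebraicClosure ℚ`, or induction. -/
def S_KXN : Prop := ∀ (ι : Type) [Fintype ι] (L : ι → Type) [∀ i, Field (L i)]
  [∀ i, NumberField (L i)], ∃ (K : Type) (_ : Field K) (_ : NumberField K), IsGalois ℚ K ∧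
    ∀ i, Nonempty (L i →+* K)

/-- JOB SUMG. A sum of semisimple submodules is semisimple.
Proof.  Induction on the number of the summands, or by a maximal stable `W'` with `W ∩ W' = 0`, or
`IsSemisimpleModule` over `MonoidAlgebra (ZMod 2) G` (`Submodule.isSemisimpleModule_iSup..`). -/
def S_SUMG : Prop := ∀ (G V : Type) [Group G] [AddCommGroup V] [Finite V] [DistribMulAction G V]
  (ι : Type) [Fintype ι] (U : ι → AddSubgroup V), (∀ v : V, v + v = 0) → (∀ i, GSt G (U i)) →
  (∀ i, ∀ W : AddSubgroup V, W ≤ U i → GSt G W →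
    ∃ W' : AddSubgroup V, W' ≤ U i ∧ GSt G W' ∧ W ⊓ W' = ⊥ ∧ W ⊔ W' = U i) →
  (⨆ i, U i = ⊤) → Semi G V

/-- JOB MSK. Maschke's theorem relative to a subgroup of odd index.
Proof.  `W` stable under `G`, `π` a projection `V → W` which commutes with `N` (from the complement for `N`); the sum of the
`g π g⁻¹` over representatives `g` of `G/N` commutes with `G` and is the identity on `W`, since the index is odd and
`v + v = 0`; its kernel is the complement. -/
def S_MSK : Prop := ∀ (G V : Type) [Group G] [Finite G] [AddCommGroup V] [DistribMulAction G V],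
  (∀ v : V, v + v = 0) → ∀ N : Subgroup G, Odd N.index → Semi N V → Semi G V

/-- JOB SEMF. Semisimplicity over the Galois fields of odd degree.
Proof (from `S_SUMG`, `S_MSK`).  By `S_SUMG` it suffices that the `U_c` (coordinates zero outside `c`) are semisimple.  By
`S_MSK` for `V = U_c` it suffices to consider the action of `N` = the elements of `Gal(K/ℚ)` which are trivial on
`τ (F c)` (the same subfield of `K` for all `τ : F c → K`, as `F c` is Galois over `ℚ`), of index `[F c : ℚ]`.  `N` maps every block to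
itself and it is transitive on the block of `τ` (the embeddings of `L c` which restrict to `τ` are conjugate under
`Gal(K/τ (F c))`).  By `S_SUMG` it suffices to consider the elements with coordinates zero outside the block of `τ`: it has
three nonzero elements, which are permuted transitively, so it has no nontrivial stable subgroups. -/
def S_SEMF : Prop := ∀ (C : Type) [Fintype C] (F L : C → Type) [∀ c, Field (F c)]
  [∀ c, NumberField (F c)] [∀ c, Field (L c)] [∀ c, NumberField (L c)] [∀ c, Algebra (F c) (L c)],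
  (∀ c, IsGalois ℚ (F c)) → (∀ c, Odd (Module.finrank ℚ (F c))) →
  (∀ c, Module.finrank (F c) (L c) = 3) → ∀ (K : Type) [Field K] [NumberField K] [IsGalois ℚ K],
  (∀ c, Nonempty (L c →+* K)) → ∀ (V : Type) [AddCommGroup V] [Finite V]
  [DistribMulAction (K ≃ₐ[ℚ] K) V] (cd : V →+ ((c : C) → (L c →+* K) → ZMod 2)),
  VB (fun c => algebraMap (F c) (L c)) cd → Semi (K ≃ₐ[ℚ] K) V

/-- JOB MQR. The rank over an elementary abelian extension `M` of `F`.
Proof.  `G = Gal(M/F)`; for a character `χ : G → {± 1}` there is an `s ∈ M^*` with `σ s = χ(σ) s` (`M/F` is Galois: the fixed field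
of the kernel of `χ` is quadratic over `F` or `F`), `s² ∈ F`.  The map `P ↦ (∑_σ χ(σ) σ P)_χ` from `E(M)` has finite kernel (the
sum over `χ` of the components is `#G` times `P`), its components are in `E(M)^χ = {P | σ P = χ(σ) P}`, and
`E(M)^χ → E^(d_i)(F)`, `(x, y) ↦ (d x, d y s'^(-1) d)` for `s² = d_i t²`, is injective: `y/s` is in `F` (check the exponents: `y = s' y'`,
`s'² = d_i = d`, `(d x, d² y')` is a point of `y² = x³ + A d² x + B d³`).  Mordell-Weil: `Pool.Agent.Q286.EQ.mordell_weil`.
Compare `Pool/Agent/Q5/BR/Rank.lean`, `Pool/Agent/Y667/OG/Rank.lean`. -/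
def S_MQR : Prop := ∀ (F M : Type) [Field F] [NumberField F] [Field M] [NumberField M] [Algebra F M],
  IsGalois F M → (∀ σ : M ≃ₐ[F] M, σ * σ = 1) → ∀ (m : ℕ) (d : Fin m → F), (∀ i, d i ≠ 0) →
  (∀ (s : M) (c : F), s ≠ 0 → s ^ 2 = algebraMap F M c →
    ∃ (i : Fin m) (t : F), c = d i * t ^ 2) →
  ∀ A B : F, 4 * A ^ 3 + 27 * B ^ 2 ≠ 0 →
    Module.finrank ℤ (shF (algebraMap F M A) (algebraMap F M B)).toAffine.Point ≤
      ∑ i, Module.finrank ℤ (shF (A * d i ^ 2) (B * d i ^ 3)).toAffine.Point

/-- JOB MQD. The finite list of the `d`.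
Proof.  The classes in `F^*/F^*²` of the `c ∈ F^*` which are squares in `M` form a finite group: `c = s²` gives the character
`σ ↦ σ s/s = ± 1` of `Gal(M/F)`, and `c` is a square in `F` if it is trivial (or: `s` generates one of the finitely many subfields).
Every class contains an integral element. -/
def S_MQD : Prop := ∀ (F M : Type) [Field F] [NumberField F] [Field M] [NumberField M] [Algebra F M],
  IsGalois F M → ∃ (m : ℕ) (d : Fin m → 𝓞 F), (∀ i, d i ≠ 0) ∧
  ∀ (s : M) (c : F), s ≠ 0 → s ^ 2 = algebraMap F M c →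
    ∃ (i : Fin m) (t : F), c = (d i : F) * t ^ 2

end Pool.Agent.Q161.ESG
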