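import Pool.Agent.Q161.ESM.All
import Pool.Agent.Q241.ESG.Vg
import Pool.Agent.Q285.ESG.Base
import Pool.Agent.Q285.ESG.Qag
import Pool.Agent.Q261.ESG.Nrm
import Pool.Agent.Q96.ESG.RELG
import Pool.Agent.Q224.ESG.DUALG
import Pool.Agent.Q224.ESG.LJG
import Pool.Agent.Q224.ESG.LOCG
import Pool.Agent.Q224.ESG.CNTG
import Pool.Agent.Q166.ESG.DAT
import Pool.Agent.Q211.ESG.Kxn

/-! # Project ESG: the count of part 1 (helpers 96, 224, 241, 261, 285) -/

set_option autoImplicit false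

namespace Pool.Agent.Q161.ESG

open Pool.Agent.Q161.ESM

theorem t_qag : S_QAG := Pool.Agent.Q285.ESG.qag t_suf
theorem t_relg : S_RELG := Pool.Agent.Q96.ESG.relg Pool.Agent.Q261.ESG.nrm t_zex t_qag
  Pool.Agent.Q285.ESG.qdg
theorem t_locg : S_LOCG := Pool.Agent.Q224.ESG.locg Pool.Agent.Q224.ESG.dualg Pool.Agent.Q224.ESG.ljg
theorem t_cntg : S_CNTG := Pool.Agent.Q224.ESG.cntg Pool.Agent.Q285.ESG.nig t_relg t_locg t_mn
theorem t_vg : S_VG := Pool.Agent.Q241.ESG.vg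
theorem t_dat : S_DAT := Pool.Agent.Q166.ESG.dat
theorem t_kxn : S_KXN := Q211.ESG.kxn

end Pool.Agent.Q161.ESG
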