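import Pool.Agent.Q161.ESG.AllG
import Pool.Agent.Q182.ESG.XTI
import Pool.Agent.Q193.ESG.XTF
import Pool.Agent.Q193.ESG.LCF
import Pool.Agent.Q166.ESG.SUMG
import Pool.Agent.Q121.ESG.MSK
import Pool.Agent.Q121.ESG.SEMF
import Pool.Agent.Q121.ESG.MQR
import Pool.Agent.Q121.ESG.MQD

/-! # Project ESG: elliptic curves over the Galois number fields of odd degree -/

set_option autoImplicit false

namespace Pool.Agent.Q161.ESG

open Polynomial NumberField IsDedekindDomain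

open scoped Classical

open Pool.Agent.Q161.ESM

theorem t_xtf : S_XTF := Pool.Agent.Q193.ESG.xtf Pool.Agent.Q182.ESG.XTI.xti
theorem t_lcf : S_LCF := Pool.Agent.Q193.ESG.lcf
theorem t_semf : S_SEMF := Pool.Agent.Q121.ESG.semf Pool.Agent.Q166.ESG.sumg Pool.Agent.Q121.ESG.msk
theorem t_mqr : S_MQR := Pool.Agent.Q121.ESG.mqr
theorem t_mqd : S_MQD := Pool.Agent.Q121.ESG.mqd

theorem degF {F : Type} [Field F] (A B : F) : (X ^ 3 + C A * X + C B : F[X]).natDegree = 3 := by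
  compute_degree!

theorem irrF {F : Type} [Field F] {A B : F} (h : ∀ x : F, x ^ 3 + A * x + B ≠ 0) :
    Irreducible (X ^ 3 + C A * X + C B : F[X]) := by
  have hdeg := degF A B
  have hne : (X ^ 3 + C A * X + C B : F[X]) ≠ 0 := by
    intro h0
    rw [h0] at hdeg
    simp at hdeg
  rw [irreducible_iff_roots_eq_zero_of_degree_le_three (by rw [hdeg]; norm_num)
    (by rw [hdeg])]
  rw [Multiset.eq_zero_iff_forall_notMem]
  intro x hx
  rw [mem_roots hne] at hx
  apply h x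
  simpa [IsRoot] using hx

theorem twF {F : Type} [Field F] {A B D : F} (hD : D ≠ 0) (h : ∀ x : F, x ^ 3 + A * x + B ≠ 0) (x : F) :
    x ^ 3 + A * D ^ 2 * x + B * D ^ 3 ≠ 0 := by
  intro h0
  apply h (x / D)
  field_simp
  linear_combination h0

theorem exists_LF (F : Type) [Field F] [NumberField F] (a b : 𝓞 F)
    (h : Irreducible (X ^ 3 + C (a : F) * X + C (b : F) : F[X])) :
    ∃ (L : Type) (_ : Field L) (_ : NumberField L) (_ : Algebra F L) (th : 𝓞 L),
      (th : L) ^ 3 + algebraMap F L a * (th : L) + algebraMap F L b = 0 ∧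
      Module.finrank F L = 3 := by
  have : Fact (Irreducible (X ^ 3 + C (a : F) * X + C (b : F) : F[X])) := ⟨h⟩
  obtain ⟨f, hf⟩ : ∃ f, f = (X ^ 3 + C (a : F) * X + C (b : F) : F[X]) := ⟨_, rfl⟩
  have : Fact (Irreducible f) := ⟨by rw [hf]; exact h⟩
  have hf0 : f ≠ 0 := (Fact.out (p := Irreducible f)).ne_zero
  have : Module.Finite F (AdjoinRoot f) := (AdjoinRoot.powerBasis hf0).finite
  have hNF : NumberField (AdjoinRoot f) := NumberField.of_module_finite F (AdjoinRoot f)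
  have hr : (AdjoinRoot.root f) ^ 3 + algebraMap F (AdjoinRoot f) a * AdjoinRoot.root f +
      algebraMap F (AdjoinRoot f) b = 0 := by
    have h1 : aeval (AdjoinRoot.root f) (X ^ 3 + C (a : F) * X + C (b : F) : F[X]) = 0 := by
      rw [← hf]
      exact AdjoinRoot.aeval_eq f ▸ AdjoinRoot.mk_self
    simpa only [map_add, map_mul, map_pow, aeval_X, aeval_C] using h1
  have hint : IsIntegral ℤ (AdjoinRoot.root f) := by
    apply isIntegral_trans (A := 𝓞 (AdjoinRoot f))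
    refine ⟨X ^ 3 + C (algebraMap (𝓞 F) (𝓞 (AdjoinRoot f)) a) * X +
      C (algebraMap (𝓞 F) (𝓞 (AdjoinRoot f)) b), ?_, ?_⟩
    · monicity!
    · simp only [eval₂_add, eval₂_mul, eval₂_pow, eval₂_X, eval₂_C]
      exact hr
  refine ⟨AdjoinRoot f, inferInstance, hNF, inferInstance, ⟨AdjoinRoot.root f, hint⟩, hr, ?_⟩
  rw [(AdjoinRoot.powerBasis hf0).finrank, AdjoinRoot.powerBasis_dim, hf]
  exact degF _ _

/-- the embedding of `F` in a field containing `L` -/
theorem xt_ne {F L : Type} [Field F] [Field L] [Algebra F L] {A B : F} {ϑ : L}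
    (h : ∀ x : F, x ^ 3 + A * x + B ≠ 0)
    (hr : ϑ ^ 3 + algebraMap F L A * ϑ + algebraMap F L B = 0) (P : (shF A B).toAffine.Point) :
    xt A B ϑ P ≠ 0 := by
  cases P with
  | zero => exact one_ne_zero
  | some x y hP =>
    intro h0
    have h1 : ϑ = algebraMap F L x := (sub_eq_zero.1 h0).symm
    apply h x
    apply (algebraMap F L).injective
    rw [h1] at hr
    rw [map_add, map_add, map_mul, map_pow, map_zero]
    exact hr

/-- the joint moments of `2^rank` over number fields -/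
theorem goalF (J : Type) [Fintype J] (F : J → Type) [∀ j, Field (F j)] [∀ j, NumberField (F j)]
    (hG : ∀ j, IsGalois ℚ (F j)) (hodd : ∀ j, Odd (Module.finrank ℚ (F j)))
    (a b : (j : J) → 𝓞 (F j))
    (h : ∀ j, ∀ x : F j, x ^ 3 + (a j : F j) * x + (b j : F j) ≠ 0) :
    ∃ C0 : ℝ, 0 < C0 ∧ ∀ X : ℝ, 1 ≤ X →
      ((∑ D ∈ (Finset.Icc (-⌊X⌋) ⌊X⌋).filter (fun D : ℤ => Squarefree D),
        ∏ j, 2 ^ Module.finrank ℤ (shF ((a j : F j) * (D : F j) ^ 2)
          ((b j : F j) * (D : F j) ^ 3)).toAffine.Point : ℕ) : ℝ) ≤ C0 * X := by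
  have hirr := fun j => irrF (h j)
  choose L i1 i2 i3 th hth hdeg using fun j => exists_LF (F j) (a j) (b j) (hirr j)
  obtain ⟨K, iK1, iK2, iK3, hemb⟩ := t_kxn J L
  obtain ⟨V, v1, v2, v3, cd, hcd⟩ := t_vg J L F K (fun j => algebraMap (F j) (L j))
  have hdat : ∀ j, Dat K (algebraMap (F j) (L j)) (th j) := fun j => by
    refine t_dat (F j) (L j) (X ^ 3 + C (a j : F j) * X + C (b j : F j)) (th j) (hirr j) ?_ ?_ ?_ K
      (hemb j)
    · simpa only [map_add, map_mul, map_pow, aeval_X, aeval_C] using hth j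
    · rw [hdeg j, degF]
    · rw [degF]; exact ⟨1, rfl⟩
  have hsemi : Semi (K ≃ₐ[ℚ] K) V := t_semf J F L hG hodd hdeg K hemb V cd hcd
  choose B hB0 hB using fun j => t_lcf (F j) (L j) (a j) (b j) (th j) (hirr j) (hth j) (hdeg j) K
    (hemb j)
  obtain ⟨C0, hC0, hmain⟩ := t_cntg J L F K (fun j => algebraMap (F j) (L j)) th hdat V cd hcd hsemi
    (∏ j, B j) (Finset.prod_ne_zero_iff.2 fun j _ => hB0 j)
  have hS : ∀ (j : J) (D : ℤ) (_ : D ≠ 0), ∃ S : Finset (shF ((a j : F j) * (D : F j) ^ 2)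
      ((b j : F j) * (D : F j) ^ 3)).toAffine.Point,
      2 ^ Module.finrank ℤ (shF ((a j : F j) * (D : F j) ^ 2)
        ((b j : F j) * (D : F j) ^ 3)).toAffine.Point ≤ S.card ∧
      ∀ P ∈ S, ∀ P' ∈ S, P ≠ P' → ¬ IsSquare (
        xt ((a j : F j) * (D : F j) ^ 2) ((b j : F j) * (D : F j) ^ 3) ((D : L j) * (th j : L j)) P *
        xt ((a j : F j) * (D : F j) ^ 2) ((b j : F j) * (D : F j) ^ 3) ((D : L j) * (th j : L j)) P') := by
    intro j D hD
    have hD' : (D : F j) ≠ 0 := by exact_mod_cast hD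
    refine t_xtf (F j) (L j) _ _ _ (irrF (twF hD' (h j))) ?_ (hdeg j)
    simp only [map_mul, map_pow, map_intCast]
    linear_combination (D : L j) ^ 3 * hth j
  let Fs : (j : J) → ℤ → Finset (L j) := fun j D => if hD : Squarefree D then
    ((hS j D hD.ne_zero).choose).image
      (xt ((a j : F j) * (D : F j) ^ 2) ((b j : F j) * (D : F j) ^ 3) ((D : L j) * (th j : L j))) else ∅
  refine ⟨C0, hC0, fun X hX => ?_⟩
  have hF := hmain Fs (by
    intro j D δ hδ
    by_cases hD : Squarefree D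
    · simp only [Fs, dif_pos hD, Finset.mem_image] at hδ
      obtain ⟨P, -, rfl⟩ := hδ
      have hD' : (D : F j) ≠ 0 := by exact_mod_cast hD.ne_zero
      refine ⟨xt_ne (twF hD' (h j)) ?_ P, ?_⟩
      · simp only [map_mul, map_pow, map_intCast]
        linear_combination (D : L j) ^ 3 * hth j
      · exact Pool.Agent.Q96.ESG.gd1_mono (hB j D hD P)
          (Finset.dvd_prod_of_mem B (Finset.mem_univ j))
    · simp only [Fs, dif_neg hD] at hδ
      exact absurd hδ (Finset.notMem_empty _)) (by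
    intro j D δ hδ δ' hδ' hne
    by_cases hD : Squarefree D
    · simp only [Fs, dif_pos hD, Finset.mem_image] at hδ hδ'
      obtain ⟨P, hP, rfl⟩ := hδ
      obtain ⟨P', hP', rfl⟩ := hδ'
      exact (hS j D hD.ne_zero).choose_spec.2 P hP P' hP' (fun h => hne (congrArg _ h))
    · simp only [Fs, dif_neg hD] at hδ
      exact absurd hδ (Finset.notMem_empty _)) X hX
  refine le_trans ?_ hF
  have key : ∀ D ∈ (Finset.Icc (-⌊X⌋) ⌊X⌋).filter (fun D : ℤ => Squarefree D),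
      ∏ j, 2 ^ Module.finrank ℤ (shF ((a j : F j) * (D : F j) ^ 2)
          ((b j : F j) * (D : F j) ^ 3)).toAffine.Point ≤ ∏ j, (Fs j D).card := by
    intro D hD
    have hD0 : Squarefree D := (Finset.mem_filter.1 hD).2
    refine Finset.prod_le_prod' fun j _ => ?_
    simp only [Fs, dif_pos hD0]
    have hsp := (hS j D hD0.ne_zero).choose_spec
    rw [Finset.card_image_of_injOn]
    · exact hsp.1
    · intro P hP P' hP' he
      by_contra hne
      apply hsp.2 P hP P' hP' hne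
      change IsSquare (xt _ _ _ P * xt _ _ _ P')
      rw [he]
      exact ⟨_, rfl⟩
  exact_mod_cast Finset.sum_le_sum key

/-- the joint moments over elementary abelian extensions `M j` of `F j` -/
theorem goalM (J : Type) [Fintype J] (F M : J → Type) [∀ j, Field (F j)] [∀ j, NumberField (F j)]
    [∀ j, Field (M j)] [∀ j, NumberField (M j)] [∀ j, Algebra (F j) (M j)]
    (hG : ∀ j, IsGalois ℚ (F j)) (hodd : ∀ j, Odd (Module.finrank ℚ (F j)))
    (hM : ∀ j, IsGalois (F j) (M j)) (h2 : ∀ j, ∀ σ : M j ≃ₐ[F j] M j, σ * σ = 1)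
    (a b : (j : J) → 𝓞 (F j))
    (h : ∀ j, ∀ x : F j, x ^ 3 + (a j : F j) * x + (b j : F j) ≠ 0) (k : ℕ) :
    ∃ C0 : ℝ, 0 < C0 ∧ ∀ X : ℝ, 1 ≤ X →
      ∑ D ∈ (Finset.Icc (-⌊X⌋) ⌊X⌋).filter (fun D : ℤ => Squarefree D),
        ∏ j, ((2 : ℝ) ^ Module.finrank ℤ (shF (algebraMap (F j) (M j) ((a j : F j) * (D : F j) ^ 2))
          (algebraMap (F j) (M j) ((b j : F j) * (D : F j) ^ 3))).toAffine.Point) ^ k ≤ C0 * X := by
  choose m d hd0 hd using fun j => t_mqd (F j) (M j) (hM j)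
  obtain ⟨C0, hC0, hmain⟩ := goalF ((j : J) × Fin (m j) × Fin k) (fun i => F i.1)
    (fun i => hG i.1) (fun i => hodd i.1) (fun i => a i.1 * (d i.1 i.2.1) ^ 2)
    (fun i => b i.1 * (d i.1 i.2.1) ^ 3) (by
      rintro ⟨j, i, -⟩ x
      have hdj : (d j i : F j) ≠ 0 := by exact_mod_cast hd0 j i
      have h3 := twF hdj (h j) x
      push_cast
      exact h3)
  refine ⟨C0, hC0, fun X hX => ?_⟩
  have h3 := hmain X hX
  rw [Nat.cast_sum] at h3
  refine le_trans (Finset.sum_le_sum fun D hD => ?_) h3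
  have hD0 : (D : ℤ) ≠ 0 := (Finset.mem_filter.1 hD).2.ne_zero
  rw [Fintype.prod_sigma, Nat.cast_prod]
  refine Finset.prod_le_prod (fun j _ => by positivity) fun j _ => ?_
  have hDj : (D : F j) ≠ 0 := by exact_mod_cast hD0
  have h5 : 4 * ((a j : F j) * (D : F j) ^ 2) ^ 3 + 27 * ((b j : F j) * (D : F j) ^ 3) ^ 2 ≠ 0 :=
    Pool.Agent.Q193.ESG.disc_ne (irrF (twF hDj (h j)))
  have h4 := t_mqr (F j) (M j) (hM j) (h2 j) (m j) (fun i => (d j i : F j))
    (fun i => by exact_mod_cast hd0 j i) (hd j) _ _ h5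
  rw [Fintype.prod_prod_type]
  obtain ⟨rr, hrr⟩ : ∃ rr : Fin (m j) → ℕ, rr = fun i => Module.finrank ℤ
    (shF (((a j * d j i ^ 2 : 𝓞 (F j)) : F j) * (D : F j) ^ 2)
      (((b j * d j i ^ 3 : 𝓞 (F j)) : F j) * (D : F j) ^ 3)).toAffine.Point := ⟨_, rfl⟩
  have e0 : (∏ i : Fin (m j), ∏ _l : Fin k, 2 ^ rr i : ℕ) = (2 ^ ∑ i, rr i) ^ k := by
    simp only [Finset.prod_const, Finset.card_univ, Fintype.card_fin, Finset.prod_pow]
    rw [Finset.prod_pow_eq_pow_sum]
  refine le_trans ?_ (le_of_eq (congrArg (Nat.cast : ℕ → ℝ) (e0.symm.trans (by rw [hrr]))))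
  rw [Nat.cast_pow, Nat.cast_pow, Nat.cast_ofNat, hrr]
  refine pow_le_pow_left₀ (by positivity) (pow_le_pow_right₀ one_le_two (h4.trans (le_of_eq ?_))) k
  refine Finset.sum_congr rfl fun i _ => ?_
  have e1 : (a j : F j) * (D : F j) ^ 2 * (d j i : F j) ^ 2 =
      ((a j * d j i ^ 2 : 𝓞 (F j)) : F j) * (D : F j) ^ 2 := by
    push_cast
    ring
  have e2 : (b j : F j) * (D : F j) ^ 3 * (d j i : F j) ^ 3 =
      ((b j * d j i ^ 3 : 𝓞 (F j)) : F j) * (D : F j) ^ 3 := by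
    push_cast
    ring
  rw [e1, e2]

end Pool.Agent.Q161.ESG
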