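import Mathlib
import Pool.Agent.Y723.HJ.Map

/-!
# The Jacobian of `y² = h(x)` over `ℚ`, its quadratic twists and its Tate-Shafarevich group

`h` is a monic polynomial of odd degree `n` with integral coefficients. The curve `y² = h(x)` has one point at
infinity, which is rational. For an algebraically closed field `L` (if `h` has no multiple roots in `L`) the group
of the points of the Jacobian over `L` is the group of the divisor classes of degree zero of the projective curve,
which is the class group of the ring `L[x, y] / (y² - h(x))` of the functions that are regular outside of the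
point at infinity.
-/

set_option autoImplicit false

namespace Pool.Agent.Q161.ESG

open Polynomial

/-- a monic polynomial of odd degree with integral coefficients; it stands for the curve `y² = h(x)` -/
structure HP : Type where
  pol : ℤ[X]
  monic : pol.Monic
  odd : Odd pol.natDegree

/-- the quadratic twist by `D`: the polynomial `D^n h(x/D)`, whose zeros are `D` times the zeros of `h`; the
curve `y² = D^n h(x/D)` is isomorphic to `D y² = h(x)` -/
noncomputable def HP.twist (H : HP) (D : ℤ) : HP where
  pol := H.pol.scaleRoots D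
  monic := (Polynomial.monic_scaleRoots_iff D).2 H.monic
  odd := by rw [Polynomial.natDegree_scaleRoots]; exact H.odd

/-- `h` as a polynomial over the field `L` -/
noncomputable def pol (H : HP) (L : Type) [Field L] : L[X] := H.pol.map (Int.castRingHom L)

instance instOddM (H : HP) (L : Type) [Field L] : Pool.Agent.Y723.HJ.OddM (pol H L) where
  monic := H.monic.map _
  odd := by
    unfold pol
    rw [H.monic.natDegree_map]
    exact H.odd

variable (H : HP)

/-- The ring `L[x, y] / (y² - h(x))`, of the elements `p + q y` with `p`, `q` in `L[x]`, and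
`y * y = h(x) + 0 * y`. -/
def CoordRing (L : Type) [Field L] : Type := QuadraticAlgebra L[X] (pol H L) 0

noncomputable instance instCommRing (L : Type) [Field L] : CommRing (CoordRing H L) :=
  QuadraticAlgebra.instCommRing

instance instIsDomain (L : Type) [Field L] : IsDomain (CoordRing H L) :=
  inferInstanceAs (IsDomain (Pool.Agent.Y723.HJ.CR (pol H L)))

/-- the map of the coordinate rings given by a homomorphism of fields: `p + q y ↦ φ(p) + φ(q) y` -/
noncomputable def coordMap {F L : Type} [Field F] [Field L] (φ : F →+* L) (z : CoordRing H F) :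
    CoordRing H L := (⟨(QuadraticAlgebra.re z).map φ, (QuadraticAlgebra.im z).map φ⟩ :
      QuadraticAlgebra L[X] (pol H L) 0)

lemma pol_map {F L : Type} [Field F] [Field L] (φ : F →+* L) : (pol H F).map φ = pol H L := by
  unfold pol
  rw [Polynomial.map_map]
  congr 1
  exact RingHom.ext_int _ _

lemma coordMap_zero {F L : Type} [Field F] [Field L] (φ : F →+* L) : coordMap H φ 0 = 0 :=
  map_zero (Pool.Agent.Y723.HJ.mapR φ (pol_map H φ))

lemma coordMap_one {F L : Type} [Field F] [Field L] (φ : F →+* L) : coordMap H φ 1 = 1 :=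
  map_one (Pool.Agent.Y723.HJ.mapR φ (pol_map H φ))

lemma coordMap_add {F L : Type} [Field F] [Field L] (φ : F →+* L) (z w : CoordRing H F) :
    coordMap H φ (z + w) = coordMap H φ z + coordMap H φ w :=
  map_add (Pool.Agent.Y723.HJ.mapR φ (pol_map H φ)) z w

lemma coordMap_mul {F L : Type} [Field F] [Field L] (φ : F →+* L) (z w : CoordRing H F) :
    coordMap H φ (z * w) = coordMap H φ z * coordMap H φ w :=
  map_mul (Pool.Agent.Y723.HJ.mapR φ (pol_map H φ)) z w

/-- `coordMap` as a homomorphism -/
noncomputable def ringMap {F L : Type} [Field F] [Field L] (φ : F →+* L) :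
    CoordRing H F →+* CoordRing H L :=
  ⟨⟨⟨coordMap H φ, coordMap_one H φ⟩, coordMap_mul H φ⟩, coordMap_zero H φ, coordMap_add H φ⟩

lemma ringMap_inj {F L : Type} [Field F] [Field L] (φ : F →+* L) :
    Function.Injective (ringMap H φ) := Pool.Agent.Y723.HJ.mapR_inj φ (pol_map H φ)

/-- The points of the Jacobian of `y² = h(x)` over the algebraically closed field `L`: the
class group of the coordinate ring of the affine curve. -/
def Jac (L : Type) [Field L] : Type := ClassGroup (CoordRing H L)

/-- the group of the points is written additively -/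
noncomputable instance instAddCommGroup (L : Type) [Field L] : AddCommGroup (Jac H L) :=
  Additive.addCommGroup (α := ClassGroup (CoordRing H L))

/-- the map of the points given by a homomorphism of fields (extension of ideals) -/
noncomputable def pointMap {F L : Type} [Field F] [Field L] (φ : F →+* L) (P : Jac H F) :
    Jac H L :=
  letI : Algebra (CoordRing H F) (CoordRing H L) := (ringMap H φ).toAlgebra
  haveI : FaithfulSMul (CoordRing H F) (CoordRing H L) :=
    (faithfulSMul_iff_algebraMap_injective _ _).2 (ringMap_inj H φ)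
  ClassGroup.extendedHom (CoordRing H F) (CoordRing H L) P

lemma pointMap_add {F L : Type} [Field F] [Field L] (φ : F →+* L) (P Q : Jac H F) :
    pointMap H φ (P + Q) = pointMap H φ P + pointMap H φ Q :=
  letI : Algebra (CoordRing H F) (CoordRing H L) := (ringMap H φ).toAlgebra
  haveI : FaithfulSMul (CoordRing H F) (CoordRing H L) :=
    (faithfulSMul_iff_algebraMap_injective _ _).2 (ringMap_inj H φ)
  map_mul (ClassGroup.extendedHom (CoordRing H F) (CoordRing H L)) _ _

/-- the map as a homomorphism (for the proofs) -/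
noncomputable def pointHom {F L : Type} [Field F] [Field L] (φ : F →+* L) : Jac H F →+ Jac H L :=
  AddMonoidHom.mk' (pointMap H φ) (pointMap_add H φ)

lemma pointMap_zero {F L : Type} [Field F] [Field L] (φ : F →+* L) : pointMap H φ 0 = 0 :=
  map_zero (pointHom H φ)

lemma pointMap_neg {F L : Type} [Field F] [Field L] (φ : F →+* L) (P : Jac H F) :
    pointMap H φ (-P) = -pointMap H φ P :=
  map_neg (pointHom H φ) P

/-- the algebraic numbers -/
abbrev QB : Type := AlgebraicClosure ℚ

/-- the absolute Galois group of `ℚ` -/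
abbrev GQ : Type := QB ≃ₐ[ℚ] QB

/-- the action of the Galois group on the points of the Jacobian -/
noncomputable def act (σ : GQ) (P : Jac H QB) : Jac H QB := pointMap H (σ : QB →+* QB) P

lemma act_add (σ : GQ) (P Q : Jac H QB) : act H σ (P + Q) = act H σ P + act H σ Q :=
  pointMap_add H _ P Q

lemma act_zero (σ : GQ) : act H σ 0 = 0 := pointMap_zero H _

lemma act_neg (σ : GQ) (P : Jac H QB) : act H σ (-P) = -act H σ P := pointMap_neg H _ P

/-- the points of the Jacobian over `ℚ` -/
noncomputable def JacQ : AddSubgroup (Jac H QB) where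
  carrier := {P | ∀ σ : GQ, act H σ P = P}
  zero_mem' := fun σ => act_zero H σ
  add_mem' := fun {P Q} hP hQ σ => by rw [act_add, hP, hQ]
  neg_mem' := fun {P} hP σ => by rw [act_neg, hP]

/-- continuous (that is locally constant) 1-cocycles -/
def IsCocycle (f : GQ → Jac H QB) : Prop :=
  IsLocallyConstant f ∧ ∀ σ τ, f (σ * τ) = f σ + act H σ (f τ)

/-- coboundaries `σ ↦ σ P - P` -/
def IsCoboundary (f : GQ → Jac H QB) : Prop := ∃ P, ∀ σ, f σ = act H σ P - P

/-- The restriction of the cocycle `f` to the absolute Galois group of the completion `K` of `ℚ`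
(`K` is `ℚ_p` or `ℝ`) is a coboundary: for every embedding `ι` of the algebraic numbers in an
algebraic closure of `K` there is a point `P` over this algebraic closure with
`ι (f (τ|QB)) = τ P - P` for every automorphism `τ` of the algebraic closure over `K`. -/
def LocallyTrivial (K : Type) [Field K] [Algebra ℚ K] (f : GQ → Jac H QB) : Prop :=
  ∀ ι : QB →ₐ[ℚ] AlgebraicClosure K, ∃ P : Jac H (AlgebraicClosure K),
    ∀ (τ : AlgebraicClosure K ≃ₐ[K] AlgebraicClosure K) (σ : GQ),
      (∀ x : QB, τ (ι x) = ι (σ x)) →
      pointMap H (ι : QB →+* AlgebraicClosure K) (f σ) =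
        pointMap H (τ : AlgebraicClosure K →+* AlgebraicClosure K) P - P

/-- cocycles that are trivial at all places of `ℚ` -/
def IsShaCocycle (f : GQ → Jac H QB) : Prop :=
  IsCocycle H f ∧ (∀ (p : ℕ) [Fact p.Prime], LocallyTrivial H ℚ_[p] f) ∧ LocallyTrivial H ℝ f

/-- the cocycles that are trivial at all places of `ℚ` -/
noncomputable def shaCocycles : AddSubgroup (GQ → Jac H QB) where
  carrier := {f | IsShaCocycle H f}
  zero_mem' := by
    refine ⟨⟨IsLocallyConstant.const _, fun σ τ => ?_⟩, ?_, ?_⟩
    · simp only [Pi.zero_apply, act_zero, add_zero]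
    · intro p _ ι
      exact ⟨0, fun τ σ _ => by simp only [Pi.zero_apply, pointMap_zero, sub_zero]⟩
    · intro ι
      exact ⟨0, fun τ σ _ => by simp only [Pi.zero_apply, pointMap_zero, sub_zero]⟩
  add_mem' := by
    rintro f g ⟨⟨hf1, hf2⟩, hf3, hf4⟩ ⟨⟨hg1, hg2⟩, hg3, hg4⟩
    refine ⟨⟨hf1.add hg1, fun σ τ => ?_⟩, ?_, ?_⟩
    · simp only [Pi.add_apply, hf2, hg2, act_add]
      abel
    · intro p _ ι
      obtain ⟨P, hP⟩ := hf3 p ι
      obtain ⟨Q, hQ⟩ := hg3 p ι
      refine ⟨P + Q, fun τ σ h => ?_⟩
      simp only [Pi.add_apply, pointMap_add, hP τ σ h, hQ τ σ h]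
      abel
    · intro ι
      obtain ⟨P, hP⟩ := hf4 ι
      obtain ⟨Q, hQ⟩ := hg4 ι
      refine ⟨P + Q, fun τ σ h => ?_⟩
      simp only [Pi.add_apply, pointMap_add, hP τ σ h, hQ τ σ h]
      abel
  neg_mem' := by
    rintro f ⟨⟨hf1, hf2⟩, hf3, hf4⟩
    refine ⟨⟨hf1.neg, fun σ τ => ?_⟩, ?_, ?_⟩
    · simp only [Pi.neg_apply, hf2, act_neg]
      abel
    · intro p _ ι
      obtain ⟨P, hP⟩ := hf3 p ι
      refine ⟨-P, fun τ σ h => ?_⟩
      simp only [Pi.neg_apply, pointMap_neg, hP τ σ h]
      abel
    · intro ι
      obtain ⟨P, hP⟩ := hf4 ι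
      refine ⟨-P, fun τ σ h => ?_⟩
      simp only [Pi.neg_apply, pointMap_neg, hP τ σ h]
      abel

/-- the coboundaries -/
noncomputable def coboundaries : AddSubgroup (GQ → Jac H QB) where
  carrier := {f | IsCoboundary H f}
  zero_mem' := ⟨0, fun σ => by simp only [Pi.zero_apply, act_zero, sub_zero]⟩
  add_mem' := by
    rintro f g ⟨P, hP⟩ ⟨Q, hQ⟩
    refine ⟨P + Q, fun σ => ?_⟩
    simp only [Pi.add_apply, hP, hQ, act_add]
    abel
  neg_mem' := by
    rintro f ⟨P, hP⟩
    refine ⟨-P, fun σ => ?_⟩
    simp only [Pi.neg_apply, hP, act_neg]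
    abel

/-- The Tate-Shafarevich group of the Jacobian of `y² = h(x)` over `ℚ`: the cocycles that
are trivial at all places modulo the coboundaries. -/
def Sha : Type := shaCocycles H ⧸ (coboundaries H).addSubgroupOf (shaCocycles H)

noncomputable instance instAddCommGroupSha : AddCommGroup (Sha H) :=
  QuotientAddGroup.Quotient.addCommGroup _

/-- the elements `c` of the Tate-Shafarevich group with `n c = 0` -/
def ShaTorsion (n : ℕ) : Type := {c : Sha H // n • c = 0}

/-- the quotient `J(ℚ) / n J(ℚ)` -/
def QuotQ (n : ℕ) : Type := JacQ H ⧸ (nsmulAddMonoidHom n : JacQ H →+ JacQ H).range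

end Pool.Agent.Q161.ESG
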