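import Pool.Agent.Q161.ESM.Stm4
import Pool.Agent.Q161.ESG.JDef
import Pool.Agent.Q161.EA.Stm2
import Pool.Agent.Y723.HJ.Rt

/-!
# Project ESG (helper161), part 2: Jacobians of hyperelliptic curves of odd degree over `ℚ`

`H` : a monic polynomial `h` of odd degree `n = 2 g + 1`, `J = Jac H L` the class group of `L[x, y]/(y² - h(x))`
(`Pool/Agent/Q161/ESG/JDef.lean`, generalising `Pool/Agent/Y723/SJ/Def.lean`, where `h = ∏ (x - a i)`).  The algebraic
theory (`Pool/Agent/Y723/HJ/{Quad, Idl, Cls, Map, Rt}.lean`) is for general `f` over a field, with roots in the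
field where necessary, so it can be used over `QB` and over the algebraic closure of `ℚ_p`.

Part A: the 2-Selmer group and its map to `L^*/L^*²`, `L = ℚ(θ)` (compare project EA, `Q161/EA/Stm2.lean` and the
proofs of `S_KD, S_KI, S_KL, S_SHA, S_GRP2` by helpers 26 and 68, and `Y723/HJ/{Sgn, Loc, Cnt, Quo}.lean`).
Part B: the local conditions `Gd1` at the primes `l`.
-/

set_option autoImplicit false

namespace Pool.Agent.Q161.ESG

open Polynomial NumberField IsDedekindDomain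

open Pool.Agent.Y723.HJ (CR OddM HF nm cl val del)
open Pool.Agent.Q51.EL (Setup Abv Par)
open Pool.Agent.Q161.ESM

/-! ## Part A: the 2-Selmer group -/

/-- cocycles with values in `J[2]` which are trivial in `J` at all places -/
noncomputable def selJ (H : HP) : AddSubgroup (GQ → Jac H QB) where
  carrier := {f | IsShaCocycle H f ∧ ∀ σ, f σ + f σ = 0}
  zero_mem' := ⟨(shaCocycles H).zero_mem, fun σ => by simp⟩
  add_mem' := by
    rintro f g ⟨hf, hf2⟩ ⟨hg, hg2⟩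
    refine ⟨(shaCocycles H).add_mem hf hg, fun σ => ?_⟩
    have e : (f + g) σ + (f + g) σ = (f σ + f σ) + (g σ + g σ) := by
      simp only [Pi.add_apply]
      abel
    rw [e, hf2, hg2, add_zero]
  neg_mem' := by
    rintro f ⟨hf, hf2⟩
    refine ⟨(shaCocycles H).neg_mem hf, fun σ => ?_⟩
    have e : (-f) σ + (-f) σ = -(f σ + f σ) := by
      simp only [Pi.neg_apply]
      abel
    rw [e, hf2, neg_zero]

/-- the coboundaries of the points `T` with `2 T = 0` -/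
noncomputable def cobJ (H : HP) : AddSubgroup (GQ → Jac H QB) where
  carrier := {f | ∃ T : Jac H QB, T + T = 0 ∧ ∀ σ, f σ = act H σ T - T}
  zero_mem' := ⟨0, by simp, fun σ => by simp [act_zero]⟩
  add_mem' := by
    rintro f g ⟨T, hT, hf⟩ ⟨U, hU, hg⟩
    refine ⟨T + U, ?_, fun σ => ?_⟩
    · have e : T + U + (T + U) = (T + T) + (U + U) := by abel
      rw [e, hT, hU, add_zero]
    · simp only [Pi.add_apply, hf, hg, act_add]
      abel
  neg_mem' := by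
    rintro f ⟨T, hT, hf⟩
    refine ⟨-T, ?_, fun σ => ?_⟩
    · have e : -T + -T = -(T + T) := by abel
      rw [e, hT, neg_zero]
    · simp only [Pi.neg_apply, hf, act_neg]
      abel

/-- the 2-Selmer group of the Jacobian of `y² = h(x)` over `ℚ` -/
abbrev Sel2J (H : HP) : Type := selJ H ⧸ (cobJ H).addSubgroupOf (selJ H)

/-- JOB GRPJ. `0 → J(ℚ)/2 → Sel_2 → Ш[2] → 0`.
Proof: adapt `Pool/Agent/Q68/EA/GRP2.lean` (elliptic curves) and `Pool/Agent/Y723/HJ/Cnt.lean`, `Quo.lean` (`lc_act`,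
`cob_loc`, `act_mul`, `cob_sha` for `pol H`).  `J(QB)` is divisible by 2: `Pool.Agent.Y723.HJ.halve_cl`. -/
def S_GRPJ : Prop := ∀ H : HP, (H.pol.map (Int.castRingHom ℚ)).Separable → Finite (Sel2J H) →
  Finite (QuotQ H 2) ∧ Finite (ShaTorsion H 2) ∧
    Nat.card (QuotQ H 2) * Nat.card (ShaTorsion H 2) ≤ Nat.card (Sel2J H)

/-- `s` is the sign of `T` at the zero `x` of `h`: `T` is the class of an ideal `I` prime to `x`, `I² = (a)`, and `s` is
the value of `a` at `(x, 0)` (normalised at infinity) divided by the value of the norm of `I` at `x` -/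
def SgP (H : HP) (E : Type) [Field E] [HF (pol H E)] (T : Jac H E) (x s : E) : Prop :=
  ∃ (I : Ideal (CR (pol H E))) (a : CR (pol H E)), I ≠ ⊥ ∧ (nm I).eval x ≠ 0 ∧
    (cl I : ClassGroup (CR (pol H E))) = T ∧ a ≠ 0 ∧ I ^ 2 = Ideal.span {a} ∧ s = val x a / del x I

open Classical in
/-- the sign -/
noncomputable def sg (H : HP) {E : Type} [Field E] [HF (pol H E)] (T : Jac H E) (x : E) : E :=
  if h : ∃ s, SgP H E T x s then h.choose else 1

open Classical in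
/-- JOB SGP. The properties of the signs.
Proof: adapt `Pool/Agent/Y723/HJ/Rt.lean`, `Sgn.lean` (there `r : ι → E` lists the roots, `f = pf r`; over an
algebraically closed field `pol H E = pf r` for an enumeration `r` of its roots, and `Rt r T ⊤ s` gives `SgP` for all
the roots at once; `SgP` for one root is unique by the argument of `Rt.unique`).  The fourth property: for a set `A`
of roots of even cardinality let `T` be the class of the ideal `mi h (∏_{x ∈ A} (X - x)) 0`, of order two; its sign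
at `x` is `-1` iff `x ∈ A`: move it to an ideal prime to the roots, or use additivity and the signs of two-element
sets; or by counting: the classes of order two are those of the `mi h u 0`, `u ∣ h`, `2^(2g)` different
ones (`reduced_unique`), and the signs are injective on them (third property), with product one. -/
def S_SGP : Prop := ∀ (H : HP) (E : Type) [Field E] [CharZero E] [IsAlgClosed E] [HF (pol H E)],
  (∀ T : Jac H E, T + T = 0 → ∀ x ∈ (pol H E).roots, sg H T x = 1 ∨ sg H T x = -1) ∧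
  (∀ S T : Jac H E, S + S = 0 → T + T = 0 → ∀ x ∈ (pol H E).roots,
    sg H (S + T) x = sg H S x * sg H T x) ∧
  (∀ T : Jac H E, T + T = 0 → (∀ x ∈ (pol H E).roots, sg H T x = 1) → T = 0) ∧
  (∀ s : E → E, (∀ x ∈ (pol H E).roots, s x = 1 ∨ s x = -1) → ∏ x ∈ (pol H E).roots.toFinset, s x = 1 →
    ∃ T : Jac H E, T + T = 0 ∧ ∀ x ∈ (pol H E).roots, sg H T x = s x) ∧
  (∀ T : Jac H E, T + T = 0 → ∏ x ∈ (pol H E).roots.toFinset, sg H T x = 1) ∧
  ∀ (E' : Type) [Field E'] [CharZero E'] [IsAlgClosed E'] [HF (pol H E')] (φ : E →+* E') (T : Jac H E),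
    T + T = 0 → ∀ x ∈ (pol H E).roots, sg H (pointMap H φ T) (φ x) = φ (sg H T x)

/-- Kummer data for the cocycle `f` with values in `J_D[2]`, `L = ℚ(θ)`, `h(θ) = 0` -/
structure KDJ (H : HP) (D : ℤ) [HF (pol (H.twist D) QB)] {L : Type} [Field L] [NumberField L] (θ : L)
    (f : GQ → Jac (H.twist D) QB) (γ : (L →ₐ[ℚ] QB) → QB) (δ : L) : Prop where
  ne : ∀ e, γ e ≠ 0
  gal : ∀ (σ : GQ) (e : L →ₐ[ℚ] QB),
    σ (γ (σ.symm.toAlgHom.comp e)) = sg (H.twist D) (f σ) ((D : QB) * e θ) * γ e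
  sq : ∀ e, γ e ^ 2 = e δ

/-- JOB KDJ. Every cocycle has Kummer data (adapt `Pool.Agent.Q26.EA.kd`, `S_KD`).
Proof (from `S_SGP`; `S_K90` is proved: `Pool.Agent.Q161.EA.k90`): `c(σ, e) = sg (f σ) (D e(θ))`. -/
def S_KDJ : Prop := ∀ (H : HP) (L : Type) [Field L] [NumberField L] (θ : L), Setup H.pol L θ →
  ∀ (D : ℤ) [HF (pol (H.twist D) QB)], D ≠ 0 → ∀ f : GQ → Jac (H.twist D) QB,
  IsCocycle (H.twist D) f → (∀ σ, f σ + f σ = 0) →
  ∃ (γ : (L →ₐ[ℚ] QB) → QB) (δ : L), KDJ H D θ f γ δ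

/-- JOB KIJ. Injectivity (adapt `S_KI`, `Pool.Agent.Q161.EA.ki`).
Proof (from `S_SGP`).  `δ δ' = η²`, so `γ(e) γ'(e) = s(e) e(η)`, `s(e) = ± 1`; `σ(e'(η)) = (σ e')(η)`, so
`sg (f σ) (D e θ) * sg (f' σ) (D e θ) = s(σ⁻¹ e) s(e)`.  Replacing `η` by `-η` if necessary `∏_e s(e) = 1` (`n` is odd).
By the fourth property there is a `T` with `2 T = 0` and `sg T (D e θ) = s(e)`; so `f σ - f' σ` and `σ T - T` have the
same signs. -/
def S_KIJ : Prop := ∀ (H : HP) (L : Type) [Field L] [NumberField L] (θ : L), Setup H.pol L θ →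
  ∀ (D : ℤ) [HF (pol (H.twist D) QB)], D ≠ 0 →
  ∀ (f f' : GQ → Jac (H.twist D) QB) (γ γ' : (L →ₐ[ℚ] QB) → QB) (δ δ' : L),
  (∀ σ, f σ + f σ = 0) → (∀ σ, f' σ + f' σ = 0) → KDJ H D θ f γ δ → KDJ H D θ f' γ' δ' →
  IsSquare (δ * δ') → ∃ T : Jac (H.twist D) QB, T + T = 0 ∧
    ∀ σ : GQ, f σ - f' σ = act (H.twist D) σ T - T

/-- the class of `d(θ)` comes from a divisor class over `K` on the twist by `D`: a divisor given by `u, v`, prime to
the Weierstrass points, and `(-1)^(deg u) u(D θ) d(θ)` is a square in `K[X]/(h)` -/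
def LocX (H : HP) (D : ℤ) (K : Type) [Field K] [CharZero K] (d : ℚ[X]) : Prop :=
  ∃ u v G : K[X], u.Monic ∧ u ∣ pol (H.twist D) K - v ^ 2 ∧ IsCoprime u (pol (H.twist D) K) ∧
    pol H K ∣ C ((-1) ^ u.natDegree) * u.comp (C (D : K) * X) * d.map (Rat.castHom K) - G ^ 2

/-- JOB KLJ. Local solubility.
Proof (from `S_SGP`): adapt `Pool.Agent.Y723.HJ.loc_core`, `rep_loc`, `fixed_rep` (`Y723/HJ/Loc.lean`, `Sgn.lean`) and `S_KL`
(`Pool.Agent.Q161.EA.kl`).  `K = ℚ_p`, `Ω` its algebraic closure, `P ∈ J_D(Ω)` with `ι(f σ) = τ P - P`; `2 P` is fixed by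
all `τ`, so it is the class of `mi u v` with `u, v ∈ K[X]`, `u` prime to `h_D` (`exists_reduced`, `reduced_unique`,
`moving`).  `Rt.exists`: square roots `s_x` of `(-1)^(deg u) u(x)`, `x` a zero of `h_D`, with
`τ(s_x) = sg (ι f σ) (τ x) s_(τ x)`.  So `s_(D e θ) ι(γ(e'))` is fixed by the `τ` in the sense of `S_ITP`
(interpolation, proved: `Pool.Agent.Q26.EA.itp`; here for `n` nodes instead of three) and there is a `G ∈ K[X]` with
`G(e θ) = s_(D e θ) ι(γ(e'))` for all `e : L → Ω`; the squares of both sides: `(-1)^(deg u) u(D e θ) e(δ)`. -/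
def S_KLJ : Prop := ∀ (H : HP) (L : Type) [Field L] [NumberField L] (θ : L), Setup H.pol L θ →
  ∀ (D : ℤ) [HF (pol (H.twist D) QB)], D ≠ 0 →
  ∀ (f : GQ → Jac (H.twist D) QB) (γ : (L →ₐ[ℚ] QB) → QB) (δ : L), (∀ σ, f σ + f σ = 0) →
  KDJ H D θ f γ δ → ∀ (p : ℕ) [Fact p.Prime], LocallyTrivial (H.twist D) ℚ_[p] f →
  ∀ d : ℚ[X], aeval θ d = δ → LocX H D ℚ_[p] d

/-- JOB SHAJ. The classes of the elements of the Selmer group (from `S_KDJ`, `S_KIJ`, `S_KLJ`; compare `S_SHA`,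
`Pool.Agent.Q26.EA.sha`).  `HF (pol (H.twist D) QB)`: `h` is irreducible over `ℚ`, so separable, and the zeros of the
twist are `D` times the zeros of `h`. -/
def S_SHAJ : Prop := ∀ (H : HP) (L : Type) [Field L] [NumberField L] (θ : L), Setup H.pol L θ →
  ∀ D : ℤ, D ≠ 0 → ∃ Φ : Sel2J (H.twist D) → L,
    (∀ x, Φ x ≠ 0 ∧ ∃ d : ℚ[X], aeval θ d = Φ x ∧ ∀ (p : ℕ) [Fact p.Prime], LocX H D ℚ_[p] d) ∧
    ∀ x y, IsSquare (Φ x * Φ y) → x = y

/-! ## Part B: the local conditions -/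

/-- JOB INR. An element of the inertia group which moves `√D`.
Proof.  Let `M ⊆ PadicAlgCl l` be a finite Galois extension of `ℚ_l` which contains `Z` and `ϖ`, `O` the integral closure
of `ℤ_l` in `M` (the `x` with `‖x‖ ≤ 1`), `P` its maximal ideal, `I` the inertia group.  If all elements of `I` fix `ϖ`
then `I = I ∩ Gal(M/M')`, `M' = ℚ_l(ϖ)`, so `e(M/ℚ_l) = #I = e(M/M')` (`Ideal.card_inertia_eq_ramificationIdxIn` or
similar), so `e(M'/ℚ_l) = 1`; but `ϖ² = D` is `l` times a unit, so `e(M'/ℚ_l) = 2`.  Extend the element of `I` to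
`PadicAlgCl l`. -/
def S_INR : Prop := ∀ (l : ℕ) [Fact l.Prime], l ≠ 2 → ∀ D : ℤ, (l : ℤ) ∣ D → ¬ (l : ℤ) ^ 2 ∣ D →
  ∀ ϖ : PadicAlgCl l, ϖ ^ 2 = (D : PadicAlgCl l) → ∀ Z : Finset (PadicAlgCl l), (∀ z ∈ Z, ‖z‖ ≤ 1) →
  ∃ σ : PadicAlgCl l ≃ₐ[ℚ_[l]] PadicAlgCl l, σ ϖ = -ϖ ∧ ∀ z ∈ Z, ‖σ z - z‖ < 1

section

variable {l : ℕ} [Fact l.Prime]

open Classical in
/-- the zeros of `h` -/
noncomputable def rts (H : HP) (l : ℕ) [Fact l.Prime] : Finset (PadicAlgCl l) :=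
  (pol H (PadicAlgCl l)).roots.toFinset

open Classical in
/-- the units of the points of order two (compare `uu`) -/
noncomputable def uO (H : HP) (e : PadicAlgCl l → ZMod 2) (x : PadicAlgCl l) : PadicAlgCl l :=
  if e x = 0 then ∏ y ∈ (rts H l).filter (fun y => e y = 1), (x - y)
  else - ∏ y ∈ (rts H l).filter (fun y => e y = 0), (x - y)

/-- the zeros of `h` are different modulo `l` -/
def Gl (H : HP) (l : ℕ) [Fact l.Prime] : Prop :=
  (pol H (PadicAlgCl l)).Separable ∧ ∀ x ∈ rts H l, ∀ y ∈ rts H l, x ≠ y → ‖x - y‖ = 1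

end

/-- JOB J3E. Primes `l` not dividing `D`.
Proof.  `Ω = PadicAlgCl l`, `Γ = Gal(Ω/ℚ_l)` preserves the norm.  Principal square roots: if `‖a - 1‖ < 1` there is exactly
one `r = rt a` with `r² = a`, `‖r - 1‖ < 1` (`l ≠ 2`); `τ(rt a) = rt (τ a)`, `rt (a b) = rt a rt b`.  Let `U` be the set of
the zeros `ρ` of `u` in `Ω`, with multiplicities `m_ρ`; `Γ` acts; `y_ρ = v(ρ)`, `y_ρ² = ∏_x (ρ - D x)` (`x` runs over the
`n = 2g+1` zeros of `h`), `y_(τ ρ) = τ y_ρ`; and `(-1)^(deg u) u(D x) = ∏_ρ (ρ - D x)^(m_ρ)`.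
(1) `‖ρ‖ > ‖D‖` (here `‖D‖ = 1`): `w_(ρ,x) = rt (1 - D x/ρ)`, `κ_ρ = y_ρ / (ρ^g ∏_x w_(ρ,x))` satisfies `κ_ρ² = ρ`, so
`ρ - D x = (κ_ρ w_(ρ,x))²`.
(2) `‖ρ‖ ≤ ‖D‖`, `ρ' = ρ/D`, `‖ρ' - x‖ = 1` for all `x`: `ρ - D x` is a unit (`l ∤ D`).
(3) `‖ρ‖ ≤ ‖D‖`, `‖ρ' - j‖ < 1` for one (exactly one) `x = j`: `ρ - D x` is a unit for `x ≠ j`, and
`ρ - D j = y_ρ² / ∏_{x ≠ j} (ρ - D x)`, a square times a unit.
`s x = ∏_(1) (κ_ρ w_(ρ,x))^(m_ρ) * ∏_{(3), j(ρ) = x} y_ρ^(m_ρ)`. -/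
def S_J3E : Prop := ∀ (l : ℕ) [Fact l.Prime], l ≠ 2 → ∀ H : HP, Gl H l → ∀ D : ℤ, ¬ (l : ℤ) ∣ D →
  ∀ u v : ℚ_[l][X], u.Monic → u ∣ pol (H.twist D) ℚ_[l] - v ^ 2 → IsCoprime u (pol (H.twist D) ℚ_[l]) →
  ∃ c s : PadicAlgCl l → PadicAlgCl l,
    (∀ (τ : PadicAlgCl l ≃ₐ[ℚ_[l]] PadicAlgCl l), ∀ x ∈ rts H l, s (τ x) = τ (s x)) ∧
    ∀ x ∈ rts H l, ‖c x‖ = 1 ∧ s x ≠ 0 ∧
      (-1) ^ u.natDegree * aeval ((D : PadicAlgCl l) * x) u = c x * s x ^ 2

/-- JOB J3. Primes `l` dividing `D` exactly once.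
Proof (from `S_INR`).  Notation and case (1) as in `S_J3E`.  Let `ϖ² = D`.
For `‖ρ‖ ≤ ‖D‖` put `ρ' = ρ/D`, `η_ρ = y_ρ/D^g`, so `η_ρ² = D ∏_x (ρ' - x)`, `τ η_ρ = η_(τ ρ)`.
(2) `‖ρ' - x‖ = 1` for all `x`: call `ρ ~ ρ1` if `‖ρ' - ρ1'‖ < 1`.  Claim: the sum `N` of the `m_ρ` over a class is even.
`κ_ρ = η_ρ/ϖ` satisfies `κ_ρ² = ∏_x (ρ' - x)`, a unit, so for `ρ ~ ρ1` `κ_ρ ≡ κ_ρ1` or `κ_ρ ≡ -κ_ρ1` (not both).  Let `σ` be
as in `S_INR` for the `ρ'` and `κ_ρ`: it maps each class to itself, `κ_(σ ρ) = σ(η_ρ)/ϖ = -σ(κ_ρ) ≡ -κ_ρ`; so `σ` exchanges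
the `ρ` of the class with `κ_ρ ≡ κ_ρ0` and those with `κ_ρ ≡ -κ_ρ0`, and preserves `m_ρ`.
`ρ - D x = D (ρ' - x) = η_ρ² h_x(ρ)`, `h_x(ρ) = 1/∏_{y ≠ x} (ρ' - y)`, a unit, depending modulo the maximal ideal only on
the class of `ρ`.  So `∏_(2) (ρ - D x)^(m_ρ) = (∏ η_ρ^(m_ρ) * H_x)²`, where `H_x` is the square root of
`∏ h_x(ρ)^(m_ρ)` which is congruent to `∏_classes h_x(ρ0)^(N/2)`; `τ H_x = H_(τ x)` by uniqueness.
(3) `‖ρ' - j‖ < 1`, `j = j(ρ)`: for `x ≠ j`, `w_(ρ,x) = rt ((ρ' - x)/(j - x))`, `ρ - D x = D (j - x) w_(ρ,x)²`; and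
`ρ - D j = η_ρ² / (f_j W_ρ²)`, `f_j = ∏_{y ≠ j} (j - y)`, `W_ρ = ∏_{x ≠ j} w_(ρ,x)`.
Let `N_j` be the sum of the `m_ρ` with `j(ρ) = j`, `T = {j | N_j odd}`, `Γ`-stable (`N_(τ j) = N_j`).  Up to the squares of
equivariant functions of `x`, `(-1)^(deg u) u(D x)` is `C_x = ∏_{j ∈ T, j ≠ x} D (j - x) * (f_x if x ∈ T)`.
If `#T` is even: `e` = the indicator function of `T`.  `x ∉ T`: `C_x uO x = D^#T ∏_T (x - j)²`.  `x ∈ T`:
`D C_x uO x = D^#T (∏_{j ∈ T, j ≠ x} (x - j) ∏_{y ∉ T} (x - y))²` (signs: `(-1)^(#T-1) * (-1) = 1`).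
If `#T` is odd: `e x = 1` iff `x ∉ T` (an even number).  `x ∉ T`: `C_x = - D^#T ∏_T (x - j)`, `uO x = - ∏_T (x - j)`, so
`D C_x uO x = D^(#T+1) (∏_T (x - j))²`.  `x ∈ T`: `C_x uO x = D^(#T-1) (..)²`. -/
def S_J3 : Prop := ∀ (l : ℕ) [Fact l.Prime], l ≠ 2 → ∀ H : HP, Gl H l → ∀ D : ℤ, (l : ℤ) ∣ D →
  ¬ (l : ℤ) ^ 2 ∣ D → ∀ u v : ℚ_[l][X], u.Monic → u ∣ pol (H.twist D) ℚ_[l] - v ^ 2 →
  IsCoprime u (pol (H.twist D) ℚ_[l]) →
  ∃ (e : PadicAlgCl l → ZMod 2) (s : PadicAlgCl l → PadicAlgCl l), ∑ x ∈ rts H l, e x = 0 ∧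
    (∀ (τ : PadicAlgCl l ≃ₐ[ℚ_[l]] PadicAlgCl l), ∀ x ∈ rts H l, e (τ x) = e x ∧ s (τ x) = τ (s x)) ∧
    ∀ x ∈ rts H l, s x ≠ 0 ∧
      (-1) ^ u.natDegree * aeval ((D : PadicAlgCl l) * x) u *
        (if e x = 1 then (D : PadicAlgCl l) else 1) * uO H e x = s x ^ 2

/-- JOB EMBW. Embeddings in the algebraic closure of `ℚ_l`.
Proof.  Let `ψ0 : K → Ω` be any embedding; `{x ∈ 𝓞 K | ‖ψ0 x‖ < 1}` is a prime `w0` above `l`, `w = g w0` (`G` is transitive),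
`ψ = ψ0 ∘ g⁻¹`.  Norms: `l` has valuation `exp(-1)` at `w` (unramified), and the elements with `w.valuation = 1` are the
quotients of elements of `𝓞 K \ w`.  `τ ∘ ψ = ψ ∘ g` for some `g ∈ G` (`K` is normal), `g w = w` as `τ` preserves the norm,
so `g` is a power of `F` (`l` is unramified; the decomposition group is generated by `F`: see
`Pool/Agent/Q299/ESM/Gal.lean`, `N1f.lean`). -/
def S_EMBW : Prop := ∀ (K : Type) [Field K] [NumberField K] [IsGalois ℚ K] (l : ℕ) [Fact l.Prime],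
  Squarefree (Ideal.span {(l : 𝓞 K)}) → ∀ w : HeightOneSpectrum (𝓞 K), Abv w l →
  ∃ ψ : K →+* PadicAlgCl l,
    (∀ (x : K) (m : ℤ), w.valuation K x = WithZero.exp (-m) → ‖ψ x‖ = (l : ℝ) ^ (-m)) ∧
    ∀ F : K ≃ₐ[ℚ] K, Fb w l F → ∀ τ : PadicAlgCl l ≃ₐ[ℚ_[l]] PadicAlgCl l,
      ∃ i : ℕ, ∀ x : K, τ (ψ x) = ψ ((F ^ i) x)

/-- JOB GDJ. The local conditions.
Proof (from `S_J3`, `S_J3E`, `S_EMBW`; `S_FRX` is proved: `Pool.Agent.Q224.ESM.frx`).  `B` is divisible by 2, the ramified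
primes of `K` and the discriminant of `h` (so `Gl H l` for `l ∤ B`: the zeros of `h` in `Ω` are the `ψ ι θ`, the
`ι θ - ι' θ` are units at `w`; `n = [L : ℚ]` embeddings).  Let `δ = d(θ)`, `u, v, G` as in `LocX` for `p = l`.  For an embedding
`ι : L → K` let `x = ψ ι θ`; so `(-1)^(deg u) u(D x) ψ(ι δ) = G(x)²`, everything `≠ 0`.
(`l ∣ D`) `e ι = e(ψ ι θ)` (sum zero over the unique block `τ : ℚ → K`; `e (cp F ι) = e ι`: some `τ ∈ Γ` induces `F`; or: define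
`e ι` by the parity of the valuation of `ι δ`, which is invariant under `F`), and
`ψ(ι δ D^(e ι) uu ι) = M_x²`, `M_x = G(x) s(x) / u(D x)`, `M_(τ x) = τ M_x`.  `M_x` is fixed by the `τ` which fix `x`, so
`M_x = k(x)`, `k ∈ ℚ_l[X]`; approximating `k` by a polynomial with rational coefficients one sees that `‖M_x‖` is an
integral power of `l`.  So the valuation of `ι δ` has the parity of `e ι`.  For `A` stable under `F`, `{ψ ι θ | ι ∈ A}` is
stable under `Γ` (`S_EMBW`), so `∏_{ι ∈ A} M_(ψ ι θ)` is in `ℚ_l`, `= l^(-k) m0`, `m0` a unit of `ℤ_l`,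
`m0^(l-1) ≡ 1`: this is `QR w l` for the product.
(`l ∤ D`) `ψ(ι δ) = (G(x)/s(x))² / c(x)`, and `G(x)/s(x)` is equivariant, so its norm is an integral power of `l`. -/
def S_GDJ : Prop := ∀ (H : HP) (L : Type) [Field L] [NumberField L] (th : 𝓞 L), Setup H.pol L (th : L) →
  ∀ (K : Type) [Field K] [NumberField K] [IsGalois ℚ K], Nonempty (L →+* K) →
  ∃ B : ℕ, B ≠ 0 ∧ ∀ (D : ℤ) (δ : L), Squarefree D → δ ≠ 0 →
    (∃ d : ℚ[X], aeval (th : L) d = δ ∧ ∀ (p : ℕ) [Fact p.Prime], LocX H D ℚ_[p] d) →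
    Gd1 K (algebraMap ℚ L) th B D δ

/-! ## Part C: semisimplicity -/

/-- `J[2]` is a semisimple Galois module: every Galois stable subgroup of the group of the points of order dividing
two has a Galois stable complement -/
def SemisimpleTwo (H : HP) : Prop := ∀ W : AddSubgroup (Jac H QB),
  (∀ P ∈ W, P + P = 0 ∧ ∀ σ : GQ, act H σ P ∈ W) → ∃ W' : AddSubgroup (Jac H QB),
    (∀ P ∈ W', P + P = 0 ∧ ∀ σ : GQ, act H σ P ∈ W') ∧ W ⊓ W' = ⊥ ∧ ∀ P : Jac H QB, P + P = 0 →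
      P ∈ W ⊔ W'

/-- JOB SEMJ. Products of semisimple modules.
Proof (from `S_SGP`).  `V = ⊕ V_c`, `V_c` = the elements with coordinates zero outside `c`; `V_c ≅ J_c[2]` by the signs
(fix `K → QB`; the zeros of `h_c` in `QB` correspond to the embeddings `L c → K`; `S_SGP`: bijective, equivariant; the
absolute Galois group acts through `Gal(K/ℚ)`, onto), so `V_c` is semisimple.  A finite direct sum of semisimple
modules is semisimple (`IsSemisimpleModule` over `MonoidAlgebra (ZMod 2) G`, or directly by induction: `W ∩ V_1`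
has a complement `X_1` in `V_1`, and the image of `W` in `⊕_{c > 1} V_c` has a complement `X_2`; `X_1 ⊕ X_2` is a
complement of `W`). -/
def S_SEMJ : Prop := ∀ (C : Type) [Fintype C] (H : C → HP) (L : C → Type) [∀ c, Field (L c)]
  [∀ c, NumberField (L c)] (th : (c : C) → 𝓞 (L c)), (∀ c, Setup (H c).pol (L c) (th c : L c)) →
  (∀ c, SemisimpleTwo (H c)) → ∀ (K : Type) [Field K] [NumberField K] [IsGalois ℚ K],
  (∀ c, Nonempty (L c →+* K)) → ∀ (V : Type) [AddCommGroup V] [DistribMulAction (K ≃ₐ[ℚ] K) V]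
  (cd : V →+ ((c : C) → (L c →+* K) → ZMod 2)), VB (fun c => algebraMap ℚ (L c)) cd →
  Semi (K ≃ₐ[ℚ] K) V

/-- JOB SYMJ. Polynomials with large Galois group.
Proof (from `S_SGP`).  The subgroups `W` of `J[2]` correspond to sets of subsets of even order of the set of the zeros
(the zeros with sign `-1`), closed under symmetric differences.  If the Galois group is the full symmetric group and
`W ≠ 0` contains the set `A`, `A` nonempty and not everything (its order is even, `n` is odd), choose `x ∈ A`, `y ∉ A`, and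
`σ` the transposition of `x` and `y`: `A + σ A = {x, y} ∈ W`, so all `{x', y'} ∈ W`, `W = J[2]`.  Degree 3: the Galois group
is transitive on the three nonzero points. -/
def S_SYMJ : Prop := ∀ H : HP, Irreducible (H.pol.map (Int.castRingHom ℚ)) →
  (H.pol.natDegree = 3 ∨
    Nat.card (H.pol.map (Int.castRingHom ℚ)).Gal = H.pol.natDegree.factorial) → SemisimpleTwo H

end Pool.Agent.Q161.ESG
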