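import Pool.Agent.Q161.ESG.AllG
import Pool.Agent.Q150.ESG.J3
import Pool.Agent.Q177.ESG.GDJ
import Pool.Agent.Q241.ESG.Semj
import Pool.Agent.Q129.ESG.GRPJ
import Pool.Agent.Q176.ESG.KDJ
import Pool.Agent.Q151.ESG.Kij
import Pool.Agent.Q150.ESG.KLJ
import Pool.Agent.Q151.ESG.Shaj
import Pool.Agent.Q14.ESG.Inr
import Pool.Agent.Q14.ESG.J3e
import Pool.Agent.Q151.ESG.Embw
import Pool.Agent.Q151.ESG.Symj

/-! # Project ESG: Jacobians of hyperelliptic curves of odd degree -/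

set_option autoImplicit false

namespace Pool.Agent.Q161.ESG

open Polynomial NumberField IsDedekindDomain

open scoped Classical

open Pool.Agent.Q51.EL (Setup)
open Pool.Agent.Q161.ESM

theorem t_gdj : S_GDJ := Pool.Agent.Q177.ESG.GDJ.gdj (Pool.Agent.Q150.ESG.j3 Pool.Agent.Q14.ESG.Inr.inr)
  Pool.Agent.Q14.ESG.j3e Pool.Agent.Q151.ESG.embw
theorem t_grpj : S_GRPJ := Pool.Agent.Q129.ESG.grpj

theorem t_shaj (h : S_SGP) : S_SHAJ := Pool.Agent.Q151.ESG.shaj (Pool.Agent.Q176.ESG.kdj h)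
  (Pool.Agent.Q151.ESG.kij h) (Pool.Agent.Q150.ESG.klj h)

/-- the field and the zero of the polynomial -/
theorem exists_LJ (H : HP) (h : Irreducible (H.pol.map (Int.castRingHom ℚ))) :
    ∃ (L : Type) (_ : Field L) (_ : NumberField L) (th : 𝓞 L), Setup H.pol L (th : L) := by
  obtain ⟨L, i1, i2, θ, hset⟩ := Pool.Agent.Q251.SX.exists_L H.pol h
  obtain ⟨t, ht⟩ := Pool.Agent.Q161.SX.exists_t hset
  refine ⟨L, i1, i2, t, ?_⟩
  have ht' : (t : L) = θ := by
    rw [ht, H.monic.leadingCoeff]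
    simp
  rw [ht']
  exact hset

theorem dat_of (H : HP) (h : Irreducible (H.pol.map (Int.castRingHom ℚ))) {L : Type} [Field L]
    [NumberField L] {th : 𝓞 L} (hs : Setup H.pol L (th : L)) (K : Type) [Field K] [NumberField K]
    [IsGalois ℚ K] (hK : Nonempty (L →+* K)) : Dat K (algebraMap ℚ L) th := by
  refine t_dat ℚ L (H.pol.map (Int.castRingHom ℚ)) th h ?_ ?_ ?_ K hK
  · have := hs.root
    rw [← this]
    exact aeval_map_algebraMap ℚ (th : L) H.pol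
  · rw [hs.deg, H.monic.natDegree_map]
  · rw [H.monic.natDegree_map]
    exact H.odd

/-- the set of the `δ` which satisfy the local conditions is finite, modulo squares -/
theorem bound_one (hG : S_CNTG) (H : HP) (h : Irreducible (H.pol.map (Int.castRingHom ℚ))) {L : Type}
    [Field L] [NumberField L] {th : 𝓞 L} (hs : Setup H.pol L (th : L)) {K : Type} [Field K]
    [NumberField K] [IsGalois ℚ K] (hK : Nonempty (L →+* K)) (V : Type) [AddCommGroup V] [Fintype V]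
    [DistribMulAction (K ≃ₐ[ℚ] K) V] (cd : V →+ (Unit → (L →+* K) → ZMod 2))
    (hcd : VB (C := Unit) (L := fun _ => L) (Bs := fun _ => ℚ) (fun _ => algebraMap ℚ L) cd)
    (hV : Semi (K ≃ₐ[ℚ] K) V) (B : ℕ) (hB : B ≠ 0) (D : ℤ) (hD : Squarefree D) :
    ∃ N : ℕ, ∀ T : Finset L, (∀ δ ∈ T, δ ≠ 0 ∧ Gd1 K (algebraMap ℚ L) th B D δ) →
      (∀ δ ∈ T, ∀ δ' ∈ T, δ ≠ δ' → ¬ IsSquare (δ * δ')) → T.card ≤ N := by
  obtain ⟨C0, hC0, hmain⟩ := hG Unit (fun _ => L) (fun _ => ℚ) K (fun _ => algebraMap ℚ L)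
    (fun _ => th) (fun _ => dat_of H h hs K hK) V cd hcd hV B hB
  have hD1 : (1 : ℝ) ≤ (|D| : ℤ) := by exact_mod_cast Int.one_le_abs hD.ne_zero
  refine ⟨⌊C0 * ((|D| : ℤ) : ℝ)⌋₊, fun T hT hT2 => ?_⟩
  have h1 := hmain (fun _ D' => if D' = D then T else ∅) (by
    intro _ D' δ hδ
    by_cases hDD : D' = D
    · simp only [hDD, if_true] at hδ ⊢
      exact hT δ hδ
    · simp only [hDD, if_false, Finset.notMem_empty] at hδ) (by
    intro _ D' δ hδ δ' hδ' hne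
    by_cases hDD : D' = D
    · simp only [hDD, if_true] at hδ hδ'
      exact hT2 δ hδ δ' hδ' hne
    · simp only [hDD, if_false, Finset.notMem_empty] at hδ) (|D| : ℤ) hD1
  apply Nat.le_floor
  refine le_trans ?_ h1
  have hmem : D ∈ (Finset.Icc (-⌊((|D| : ℤ) : ℝ)⌋) ⌊((|D| : ℤ) : ℝ)⌋).filter
      (fun D : ℤ => Squarefree D) := by
    rw [Finset.mem_filter, Int.floor_intCast, Finset.mem_Icc]
    exact ⟨⟨neg_abs_le D, le_abs_self D⟩, hD⟩
  have h2 := Finset.single_le_sum (f := fun D' : ℤ => ∏ _c : Unit,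
    (if D' = D then T else (∅ : Finset L)).card) (fun _ _ => Nat.zero_le _) hmem
  simp only [if_true, Finset.prod_const, Finset.card_univ, Fintype.card_unit, pow_one] at h2
  exact_mod_cast le_trans h2 (le_of_eq (by simp))

/-- the 2-Selmer groups are finite -/
theorem fin_sel (hSG : S_SGP) (H : HP) (h : Irreducible (H.pol.map (Int.castRingHom ℚ)))
    (hss : SemisimpleTwo H) (D : ℤ) (hD : Squarefree D) : Finite (Sel2J (H.twist D)) := by
  obtain ⟨L, i1, i2, th, hs⟩ := exists_LJ H h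
  obtain ⟨K, iK1, iK2, iK3, hemb⟩ := t_kxn Unit (fun _ => L)
  obtain ⟨V, v1, v2, v3, cd, hcd⟩ := t_vg Unit (fun _ => L) (fun _ => ℚ) K (fun _ => algebraMap ℚ L)
  have hsemi : Semi (K ≃ₐ[ℚ] K) V := Pool.Agent.Q241.ESG.Semj.semj hSG Unit (fun _ => H)
    (fun _ => L) (fun _ => th) (fun _ => hs) (fun _ => hss) K hemb V cd hcd
  obtain ⟨B, hB0, hB⟩ := t_gdj H L th hs K (hemb ())
  obtain ⟨N, hN⟩ := bound_one t_cntg H h hs (hemb ()) V cd hcd hsemi B hB0 D hD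
  obtain ⟨Φ, hΦ1, hΦ2⟩ := t_shaj hSG H L (th : L) hs D hD.ne_zero
  have hinj : Function.Injective Φ := fun x y hxy => hΦ2 x y (by
    rw [hxy]
    exact ⟨Φ y, rfl⟩)
  by_contra hinf
  rw [not_finite_iff_infinite] at hinf
  obtain ⟨T, hT⟩ := Infinite.exists_subset_card_eq (Sel2J (H.twist D)) (N + 1)
  have h1 := hN (T.image Φ) (by
    intro δ hδ
    obtain ⟨x, -, rfl⟩ := Finset.mem_image.1 hδ
    exact ⟨(hΦ1 x).1, hB D (Φ x) hD (hΦ1 x).1 (hΦ1 x).2⟩) (by
    intro δ hδ δ' hδ' hne hsq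
    obtain ⟨x, -, rfl⟩ := Finset.mem_image.1 hδ
    obtain ⟨y, -, rfl⟩ := Finset.mem_image.1 hδ'
    exact hne (congrArg Φ (hΦ2 x y hsq)))
  rw [Finset.card_image_of_injective _ hinj, hT] at h1
  omega

/-- the joint moments of the 2-Selmer groups of Jacobians -/
theorem goalJ (hSG : S_SGP) (J : Type) [Fintype J] (H : J → HP)
    (h : ∀ j, Irreducible ((H j).pol.map (Int.castRingHom ℚ))) (hss : ∀ j, SemisimpleTwo (H j)) :
    ∃ C0 : ℝ, 0 < C0 ∧ ∀ X : ℝ, 1 ≤ X →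
      ((∑ D ∈ (Finset.Icc (-⌊X⌋) ⌊X⌋).filter (fun D : ℤ => Squarefree D),
        ∏ j, Nat.card (Sel2J ((H j).twist D)) : ℕ) : ℝ) ≤ C0 * X := by
  choose L i1 i2 th hs using fun j => exists_LJ (H j) (h j)
  obtain ⟨K, iK1, iK2, iK3, hemb⟩ := t_kxn J L
  obtain ⟨V, v1, v2, v3, cd, hcd⟩ := t_vg J L (fun _ => ℚ) K (fun j => algebraMap ℚ (L j))
  have hsemi : Semi (K ≃ₐ[ℚ] K) V := Pool.Agent.Q241.ESG.Semj.semj hSG J H L th hs hss K hemb V cd hcd
  choose B hB0 hB using fun j => t_gdj (H j) (L j) (th j) (hs j) K (hemb j)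
  obtain ⟨C0, hC0, hmain⟩ := t_cntg J L (fun _ => ℚ) K (fun j => algebraMap ℚ (L j)) th
    (fun j => dat_of (H j) (h j) (hs j) K (hemb j)) V cd hcd hsemi
    (∏ j, B j) (Finset.prod_ne_zero_iff.2 fun j _ => hB0 j)
  have hΦ := fun (j : J) (D : ℤ) (hD : D ≠ 0) => t_shaj hSG (H j) (L j) (th j : L j) (hs j) D hD
  have hfin : ∀ (j : J) (D : ℤ), Squarefree D → Finite (Sel2J ((H j).twist D)) := fun j D hD =>
    fin_sel hSG (H j) (h j) (hss j) D hD
  let Φ : (j : J) → (D : ℤ) → (hD : D ≠ 0) → Sel2J ((H j).twist D) → L j :=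
    fun j D hD => (hΦ j D hD).choose
  have hΦs := fun (j : J) (D : ℤ) (hD : D ≠ 0) => (hΦ j D hD).choose_spec
  have hinj : ∀ (j : J) (D : ℤ) (hD : D ≠ 0), Function.Injective (Φ j D hD) := by
    intro j D hD x y hxy
    apply (hΦs j D hD).2
    change IsSquare (Φ j D hD x * Φ j D hD y)
    rw [hxy]
    exact ⟨Φ j D hD y, rfl⟩
  let Fs : (j : J) → ℤ → Finset (L j) := fun j D => if hD : Squarefree D then
    (@Finset.univ _ (@Fintype.ofFinite _ (hfin j D hD))).image (Φ j D hD.ne_zero) else ∅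
  refine ⟨C0, hC0, fun X hX => ?_⟩
  have hF := hmain Fs (by
    intro j D δ hδ
    by_cases hD : Squarefree D
    · simp only [Fs, dif_pos hD, Finset.mem_image] at hδ
      obtain ⟨x, -, rfl⟩ := hδ
      have h5 := (hΦs j D hD.ne_zero).1 x
      exact ⟨h5.1, Pool.Agent.Q96.ESG.gd1_mono (hB j D _ hD h5.1 h5.2)
        (Finset.dvd_prod_of_mem B (Finset.mem_univ j))⟩
    · simp only [Fs, dif_neg hD] at hδ
      exact absurd hδ (Finset.notMem_empty _)) (by
    intro j D δ hδ δ' hδ' hne hsq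
    by_cases hD : Squarefree D
    · simp only [Fs, dif_pos hD, Finset.mem_image] at hδ hδ'
      obtain ⟨x, -, rfl⟩ := hδ
      obtain ⟨y, -, rfl⟩ := hδ'
      exact hne (congrArg _ ((hΦs j D hD.ne_zero).2 x y hsq))
    · simp only [Fs, dif_neg hD] at hδ
      exact absurd hδ (Finset.notMem_empty _)) X hX
  refine le_trans (le_of_eq ?_) hF
  congr 1
  refine Finset.sum_congr rfl fun D hD => ?_
  have hD0 : Squarefree D := (Finset.mem_filter.1 hD).2
  refine Finset.prod_congr rfl fun j _ => ?_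
  simp only [Fs, dif_pos hD0]
  rw [Finset.card_image_of_injective _ (hinj j D hD0.ne_zero)]
  rw [@Nat.card_eq_fintype_card _ (@Fintype.ofFinite _ (hfin j D hD0))]
  rfl

/-- the group `J(ℚ)/2` and `Ш[2]` -/
theorem grp_le (hSG : S_SGP) (H : HP) (h : Irreducible (H.pol.map (Int.castRingHom ℚ)))
    (hss : SemisimpleTwo H) (D : ℤ) (hD : Squarefree D) :
    Finite (QuotQ (H.twist D) 2) ∧ Finite (ShaTorsion (H.twist D) 2) ∧
      Nat.card (QuotQ (H.twist D) 2) * Nat.card (ShaTorsion (H.twist D) 2) ≤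
        Nat.card (Sel2J (H.twist D)) := by
  obtain ⟨L, i1, i2, th, hs⟩ := exists_LJ H h
  exact t_grpj (H.twist D) (Pool.Agent.Q151.ESG.hf_twist hs hD.ne_zero ℚ).sep
    (fin_sel hSG H h hss D hD)

end Pool.Agent.Q161.ESG
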