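import Pool.Agent.Q150.ESG.KLJ

/-! # ESG, job SGP: the properties of the signs of the points of order two -/

set_option autoImplicit false
set_option linter.unusedVariables false

namespace Pool.Agent.Q161.ESG

open Polynomial Ideal
open Pool.Agent.Y723.HJ (CR OddM HF nm cl val del mi CC bar pf Rt Gd)
open Pool.Agent.Q150.ESG (Rt1 Gd1)

section flevel

variable {E : Type*} [Field E] {f : E[X]}

open Classical in
/-- the classes of order two come from divisors of `f` -/
theorem two_cl [hf : HF f] [IsAlgClosed E] {T : ClassGroup (CR f)} (hT : T * T = 1) :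
    ∃ u : E[X], u.Monic ∧ u ∣ f ∧ cl (mi f u 0) = T := by
  obtain ⟨g, hg⟩ : ∃ g, f.natDegree = 2 * g + 1 := (HF.toOddM (f := f)).odd
  obtain ⟨u, v, hu, huv, hdeg, hv, hc⟩ := Pool.Agent.Y723.HJ.exists_reduced hg T
  have h1 : cl (mi f u (-v)) = T⁻¹ := by
    rw [← Pool.Agent.Y723.HJ.bar_mi, Pool.Agent.Y723.HJ.cl_bar (Pool.Agent.Y723.HJ.mi_ne hu.ne_zero), hc]
  have h2 : T⁻¹ = T := inv_eq_of_mul_eq_one_left hT
  rw [h2] at h1
  have huv' : u ∣ f - (-v) ^ 2 := by rwa [neg_sq]
  obtain ⟨-, h3⟩ := Pool.Agent.Y723.HJ.reduced_unique hg hu hu huv huv' hdeg hdeg (hc.trans h1.symm)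
  have h4 : (⟨-(-v), 1⟩ : CR f) ∈ mi f u v := by
    rw [h3]
    exact Pool.Agent.Y723.HJ.mi_y_mem _ _
  rw [Pool.Agent.Y723.HJ.mem_mi huv] at h4
  have h5 : u ∣ 2 * v := by
    convert h4 using 1
    simp only
    ring
  obtain ⟨t, ht⟩ := Pool.Agent.Y723.HJ.two_unit (f := f)
  have h6 : u ∣ v := by
    have := h5.mul_left t
    rwa [← mul_assoc, ht, one_mul] at this
  obtain ⟨w, hw⟩ := h6
  refine ⟨u, hu, ?_, ?_⟩
  · have h7 : u ∣ v ^ 2 := (Dvd.intro w hw.symm).trans (dvd_pow_self v two_ne_zero)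
    have := dvd_add huv h7
    rwa [sub_add_cancel] at this
  · rw [← hc]
    have h8 : v = 0 + u * w := by rw [zero_add, hw]
    rw [h8, Pool.Agent.Y723.HJ.mi_shift]

/-- the class of the zero `x` of `f` -/
noncomputable def tcl (f : E[X]) [HF f] (x : E) : ClassGroup (CR f) := cl (mi f (X - C x) 0)

variable [hf : HF f]

omit hf in
lemma dvd_sub_zero {u : E[X]} (h : u ∣ f) : u ∣ f - 0 ^ 2 := by
  rwa [zero_pow two_ne_zero, sub_zero]

lemma mi_sq {u : E[X]} (h : u ∣ f) : mi f u 0 ^ 2 = span {CC f u} := by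
  have := Pool.Agent.Y723.HJ.mi_neg (dvd_sub_zero h)
  rw [neg_zero] at this
  rw [pow_two, this]

lemma tcl_two {x : E} (hx : f.eval x = 0) : tcl f x * tcl f x = 1 := by
  have h1 : mi f (X - C x) 0 ≠ ⊥ := Pool.Agent.Y723.HJ.mi_ne (X_sub_C_ne_zero x)
  unfold tcl
  rw [← Pool.Agent.Y723.HJ.cl_mul h1 h1, ← pow_two, mi_sq (dvd_iff_isRoot.2 hx)]
  exact Pool.Agent.Y723.HJ.cl_span (Pool.Agent.Y723.HJ.CC_ne (X_sub_C_ne_zero x))

/-- the sign of the class of `x` at another zero -/
lemma tcl_rt {x y : E} (hx : f.eval x = 0) (hy : f.eval y = 0) (hxy : y ≠ x) :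
    Rt1 y (tcl f x) ⊤ (-1) := by
  have h0 : y - x ≠ 0 := sub_ne_zero.2 hxy
  have hm : (X - C x : E[X]).Monic := monic_X_sub_C x
  have hnm : nm (mi f (X - C x) 0) = X - C x :=
    Pool.Agent.Y723.HJ.nm_mi hm (dvd_sub_zero (dvd_iff_isRoot.2 hx))
  refine ⟨mi f (X - C x) 0, CC f (X - C x), ⟨Pool.Agent.Y723.HJ.mi_ne (X_sub_C_ne_zero x), ?_⟩, rfl,
    Pool.Agent.Y723.HJ.CC_ne (X_sub_C_ne_zero x), ?_, ?_⟩
  · rw [hnm, eval_sub, eval_X, eval_C]
    exact h0
  · rw [Pool.Agent.Y723.HJ.bar_top, Ideal.mul_top, mi_sq (dvd_iff_isRoot.2 hx)]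
  · rw [Pool.Agent.Q150.ESG.val_CC1 y (X_sub_C_ne_zero x), hm.leadingCoeff, div_one]
    unfold del
    rw [hnm, natDegree_X_sub_C, pow_one, eval_sub, eval_X, eval_C]
    field_simp

open Classical in
/-- the class of a product -/
lemma prod_tcl (A : Finset E) (hA : ∀ x ∈ A, f.eval x = 0) :
    cl (mi f (∏ x ∈ A, (X - C x)) 0) = ∏ x ∈ A, tcl f x := by
  have hdvd : ∀ B : Finset E, (∀ x ∈ B, f.eval x = 0) → ∏ x ∈ B, (X - C x) ∣ f := by
    intro B hB
    apply Finset.prod_dvd_of_coprime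
    · intro a _ b _ hab
      exact isCoprime_X_sub_C_of_isUnit_sub (IsUnit.mk0 _ (sub_ne_zero.2 hab))
    · intro a ha
      exact dvd_iff_isRoot.2 (hB a ha)
  induction A using Finset.induction_on with
  | empty =>
    rw [Finset.prod_empty, Finset.prod_empty]
    have h1 : mi f 1 0 = span {(1 : CR f)} := by
      rw [span_singleton_one, Ideal.eq_top_iff_one]
      have : (CC f 1) ∈ mi f 1 0 := Pool.Agent.Y723.HJ.mi_C_mem dvd_rfl
      exact this
    rw [h1, Pool.Agent.Y723.HJ.cl_span one_ne_zero]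
  | insert x A hx ih =>
    rw [Finset.prod_insert hx, Finset.prod_insert hx, ← ih fun y hy => hA y (Finset.mem_insert_of_mem hy)]
    have h1 : (X - C x) * ∏ x ∈ A, (X - C x) ∣ f := by
      have := hdvd (insert x A) hA
      rwa [Finset.prod_insert hx] at this
    have h2 : (∏ x ∈ A, (X - C x) : E[X]) ≠ 0 := (monic_prod_of_monic _ _ fun i _ => monic_X_sub_C i).ne_zero
    rw [Pool.Agent.Y723.HJ.mi_mul (dvd_sub_zero h1), Pool.Agent.Y723.HJ.cl_mul
      (Pool.Agent.Y723.HJ.mi_ne (X_sub_C_ne_zero x)) (Pool.Agent.Y723.HJ.mi_ne h2)]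
    rfl

open Classical in
lemma roots_prod [IsAlgClosed E] : f = ∏ x ∈ f.roots.toFinset, (X - C x) := by
  have h1 := (IsAlgClosed.splits f).eq_prod_roots_of_monic (HF.toOddM (f := f)).monic
  have h2 : f.roots.Nodup := nodup_roots hf.sep
  rw [Finset.prod_eq_multiset_prod, Multiset.toFinset_val, Multiset.dedup_eq_self.2 h2]
  exact h1

open Classical in
/-- the sum of all classes is trivial -/
lemma prod_all [IsAlgClosed E] : ∏ x ∈ f.roots.toFinset, tcl f x = 1 := by
  rw [← prod_tcl _ fun x hx => (mem_roots'.1 (Multiset.mem_toFinset.1 hx)).2, ← roots_prod]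
  have h1 := Pool.Agent.Y723.HJ.mi_self (f := f) 0
  rw [zero_pow two_ne_zero, sub_zero] at h1
  rw [h1]
  apply Pool.Agent.Y723.HJ.cl_span
  intro h
  exact one_ne_zero (congrArg QuadraticAlgebra.im h)

open Classical in
/-- every class of order two is a product of classes of zeros -/
lemma two_prod [IsAlgClosed E] {T : ClassGroup (CR f)} (hT : T * T = 1) :
    ∃ A ⊆ f.roots.toFinset, T = ∏ x ∈ A, tcl f x := by
  obtain ⟨u, hu, huf, rfl⟩ := two_cl hT
  have hf0 : f ≠ 0 := (HF.toOddM (f := f)).monic.ne_zero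
  have hle : u.roots ≤ f.roots := Polynomial.roots.le_of_dvd hf0 huf
  have h2 : u.roots.Nodup := Multiset.nodup_of_le hle (nodup_roots hf.sep)
  have hA : ∀ x ∈ u.roots.toFinset, f.eval x = 0 := fun x hx =>
    (mem_roots'.1 (Multiset.subset_of_le hle (Multiset.mem_toFinset.1 hx))).2
  refine ⟨u.roots.toFinset, ?_, ?_⟩
  · intro x hx
    rw [Multiset.mem_toFinset] at hx ⊢
    exact Multiset.subset_of_le hle hx
  · rw [← prod_tcl _ hA]
    congr 2
    have h1 := (IsAlgClosed.splits u).eq_prod_roots_of_monic hu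
    rw [Finset.prod_eq_multiset_prod, Multiset.toFinset_val, Multiset.dedup_eq_self.2 h2]
    exact h1

omit hf in
lemma eq_one_pf {ι : Type*} [Fintype ι] [Infinite E] {r : ι → E} [HF (pf r)]
    {T : ClassGroup (CR (pf r))} (hT : T * T = 1) (h : ∀ i, Rt1 (r i) T ⊤ 1) : T = 1 := by
  obtain ⟨s, hs⟩ := Rt.exists (r := r) T top_ne_bot (by rw [Pool.Agent.Y723.HJ.cl_top, pow_two, hT])
  have h1 : s = fun _ => 1 := by
    funext i
    refine Rt1.unique (Pool.Agent.Y723.HJ.pf_eval i) (P := T) (I := ⊤) top_ne_bot ?_ (h i)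
    obtain ⟨J, z, hJ, h1, h2, h3, h4⟩ := hs
    exact ⟨J, z, ⟨hJ.1, hJ.2 i⟩, h1, h2, h3, h4 i⟩
  rw [h1] at hs
  exact hs.eq_one

lemma eq_one_f {ι : Type*} [Fintype ι] [Infinite E] {r : ι → E} (hfr : f = pf r)
    {T : ClassGroup (CR f)} (hT : T * T = 1) (h : ∀ i, Rt1 (r i) T ⊤ 1) : T = 1 := by
  subst hfr
  exact eq_one_pf hT h

open Classical in
/-- only the trivial class has trivial signs -/
lemma eq_one_of_rt [IsAlgClosed E] {T : ClassGroup (CR f)} (hT : T * T = 1)
    (h : ∀ x ∈ f.roots, Rt1 x T ⊤ 1) : T = 1 := by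
  have hinf : Infinite E := IsAlgClosed.instInfinite
  have hfr : f = pf (fun x : {x // x ∈ f.roots.toFinset} => x.1) := by
    have h1 := roots_prod (f := f)
    unfold pf
    rw [Finset.prod_coe_sort f.roots.toFinset (fun x => X - C x)]
    exact h1
  exact eq_one_f hfr hT fun i => h _ (Multiset.mem_toFinset.1 i.2)

end flevel

section jac

variable {H : HP} {E : Type} [Field E]

/-- the point given by the zero `x` -/
noncomputable def tx (H : HP) (E : Type) [Field E] [HF (pol H E)] (x : E) : Jac H E :=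
  (tcl (pol H E) x : ClassGroup (CR (pol H E)))

variable [HF (pol H E)] [Infinite E]

lemma sg_of {T : Jac H E} (hT : T + T = 0) {x : E} (hx : (pol H E).eval x = 0) {s : E}
    (h : Rt1 (f := pol H E) x (T : ClassGroup (CR (pol H E))) ⊤ s) : sg H T x = s :=
  Rt1.unique hx top_ne_bot (Pool.Agent.Q150.ESG.sg_rt hT hx) h

lemma sg_sq {T : Jac H E} (hT : T + T = 0) {x : E} (hx : (pol H E).eval x = 0) :
    sg H T x = 1 ∨ sg H T x = -1 := by
  have h1 := Rt1.sq hx (by exact top_ne_bot) (Pool.Agent.Q150.ESG.sg_rt hT hx)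
  have h2 : del x (⊤ : Ideal (CR (pol H E))) = 1 := by
    unfold del
    rw [Pool.Agent.Y723.HJ.nm_top]
    simp
  rw [h2] at h1
  have h3 : (sg H T x - 1) * (sg H T x + 1) = 0 := by linear_combination h1
  rcases mul_eq_zero.1 h3 with h | h
  · left; linear_combination h
  · right; linear_combination h

lemma sg_add {S T : Jac H E} (hS : S + S = 0) (hT : T + T = 0) {x : E} (hx : (pol H E).eval x = 0) :
    sg H (S + T) x = sg H S x * sg H T x := by
  have h1 := Rt1.mul hx (Pool.Agent.Q150.ESG.sg_rt hS hx) (Pool.Agent.Q150.ESG.sg_rt hT hx)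
  rw [Ideal.top_mul] at h1
  refine sg_of (by rw [add_add_add_comm, hS, hT, add_zero]) hx h1

lemma sg_zero {x : E} (hx : (pol H E).eval x = 0) : sg H (0 : Jac H E) x = 1 := by
  have h0 : (0 : Jac H E) + 0 = 0 := add_zero 0
  have h1 := sg_add (H := H) h0 h0 hx
  rw [h0] at h1
  rcases sg_sq (H := H) h0 hx with h | h
  · exact h
  · rw [h] at h1
    rw [h, h1]
    ring

lemma tx_two {x : E} (hx : (pol H E).eval x = 0) : tx H E x + tx H E x = 0 :=
  tcl_two (f := pol H E) hx

lemma sg_tx {x y : E} (hx : (pol H E).eval x = 0) (hy : (pol H E).eval y = 0) (hxy : y ≠ x) :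
    sg H (tx H E x) y = -1 := sg_of (tx_two hx) hy (tcl_rt hx hy hxy)

open Classical in
lemma sum_two (A : Finset E) (hA : ∀ x ∈ A, (pol H E).eval x = 0) :
    (∑ x ∈ A, tx H E x) + ∑ x ∈ A, tx H E x = 0 := by
  rw [← Finset.sum_add_distrib]
  exact Finset.sum_eq_zero fun x hx => tx_two (hA x hx)

open Classical in
lemma sg_sum (A : Finset E) (hA : ∀ x ∈ A, (pol H E).eval x = 0) {y : E} (hy : (pol H E).eval y = 0) :
    sg H (∑ x ∈ A, tx H E x) y = ∏ x ∈ A, sg H (tx H E x) y := by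
  induction A using Finset.induction_on with
  | empty => rw [Finset.sum_empty, Finset.prod_empty, sg_zero hy]
  | insert x A hx ih =>
    have h1 : ∀ z ∈ A, (pol H E).eval z = 0 := fun z hz => hA z (Finset.mem_insert_of_mem hz)
    rw [Finset.sum_insert hx, Finset.prod_insert hx, ← ih h1]
    exact sg_add (tx_two (hA x (Finset.mem_insert_self x A))) (sum_two A h1) hy

variable [IsAlgClosed E]

lemma root_of {x : E} (hx : x ∈ (pol H E).roots) : (pol H E).eval x = 0 := (mem_roots'.1 hx).2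

open Classical in
lemma root_of' {x : E} (hx : x ∈ (pol H E).roots.toFinset) : (pol H E).eval x = 0 :=
  root_of (Multiset.mem_toFinset.1 hx)

open Classical in
lemma card_odd : Odd (pol H E).roots.toFinset.card := by
  have h2 : (pol H E).roots.Nodup := nodup_roots (HF.sep (f := pol H E))
  rw [Multiset.toFinset_card_of_nodup h2]
  have h3 := (IsAlgClosed.splits (pol H E)).natDegree_eq_card_roots
  rw [← h3]
  exact (HF.toOddM (f := pol H E)).odd

open Classical in
lemma sum_all : ∑ x ∈ (pol H E).roots.toFinset, tx H E x = 0 := prod_all (f := pol H E)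

open Classical in
lemma sg_tx_self {x : E} (hx : (pol H E).eval x = 0) : sg H (tx H E x) x = 1 := by
  have hf0 : pol H E ≠ 0 := (HF.toOddM (f := pol H E)).monic.ne_zero
  have hmem : x ∈ (pol H E).roots.toFinset := Multiset.mem_toFinset.2 (mem_roots'.2 ⟨hf0, hx⟩)
  have h1 := sg_sum (pol H E).roots.toFinset (fun y hy => root_of' hy) hx
  rw [sum_all, sg_zero hx, ← Finset.mul_prod_erase _ _ hmem] at h1
  have h2 : ∏ y ∈ (pol H E).roots.toFinset.erase x, sg H (tx H E y) x = 1 := by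
    rw [Finset.prod_congr rfl fun y hy => sg_tx (root_of' (Finset.mem_of_mem_erase hy)) hx
      (Finset.ne_of_mem_erase hy).symm, Finset.prod_const, Finset.card_erase_of_mem hmem]
    have h3 := card_odd (H := H) (E := E)
    exact (Nat.Odd.sub_odd h3 odd_one).neg_one_pow
  rw [h2, mul_one] at h1
  exact h1.symm

open Classical in
/-- the sign of the sum over `A` -/
lemma sg_set (A : Finset E) (hA : ∀ x ∈ A, (pol H E).eval x = 0) {y : E} (hy : (pol H E).eval y = 0) :
    sg H (∑ x ∈ A, tx H E x) y = (-1) ^ (A.erase y).card := by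
  rw [sg_sum A hA hy]
  by_cases hyA : y ∈ A
  · rw [← Finset.mul_prod_erase _ _ hyA, sg_tx_self hy, one_mul,
      Finset.prod_congr rfl fun x hx => sg_tx (hA x (Finset.mem_of_mem_erase hx)) hy
      (Finset.ne_of_mem_erase hx).symm, Finset.prod_const]
  · rw [Finset.erase_eq_of_notMem hyA, Finset.prod_congr rfl fun x hx => sg_tx (hA x hx) hy
      (fun h => hyA (h ▸ hx)), Finset.prod_const]

open Classical in
lemma prod_sg {T : Jac H E} (hT : T + T = 0) : ∏ x ∈ (pol H E).roots.toFinset, sg H T x = 1 := by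
  obtain ⟨A, hA, hTA⟩ := two_prod (f := pol H E) (T := T) hT
  have hTA' : T = ∑ x ∈ A, tx H E x := hTA
  have hA' : ∀ x ∈ A, (pol H E).eval x = 0 := fun x hx => root_of' (hA hx)
  rw [hTA', Finset.prod_congr rfl fun y hy => sg_sum A hA' (root_of' hy), Finset.prod_comm]
  refine Finset.prod_eq_one fun x hx => ?_
  rw [← Finset.mul_prod_erase _ _ (hA hx), sg_tx_self (hA' x hx), one_mul,
    Finset.prod_congr rfl fun y hy => sg_tx (hA' x hx) (root_of' (Finset.mem_of_mem_erase hy))
      (Finset.ne_of_mem_erase hy), Finset.prod_const, Finset.card_erase_of_mem (hA hx)]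
  exact (Nat.Odd.sub_odd (card_odd (H := H) (E := E)) odd_one).neg_one_pow

open Classical in
lemma exists_sg [CharZero E] (s : E → E) (hs : ∀ x ∈ (pol H E).roots, s x = 1 ∨ s x = -1)
    (hp : ∏ x ∈ (pol H E).roots.toFinset, s x = 1) :
    ∃ T : Jac H E, T + T = 0 ∧ ∀ x ∈ (pol H E).roots, sg H T x = s x := by
  set A := (pol H E).roots.toFinset.filter (fun x => s x = -1) with hAdef
  have hA' : ∀ x ∈ A, (pol H E).eval x = 0 := fun x hx => root_of' (Finset.mem_filter.1 hx).1
  have hcard : Even A.card := by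
    have h1 : ∏ x ∈ (pol H E).roots.toFinset, s x = (-1) ^ A.card := by
      rw [← Finset.prod_filter_mul_prod_filter_not _ (fun x => s x = -1), ← hAdef,
        Finset.prod_congr rfl fun x hx => (Finset.mem_filter.1 hx).2, Finset.prod_const]
      have h2 : ∏ x ∈ (pol H E).roots.toFinset.filter (fun x => ¬ s x = -1), s x = 1 := by
        refine Finset.prod_eq_one fun x hx => ?_
        obtain ⟨h3, h4⟩ := Finset.mem_filter.1 hx
        rcases hs x (Multiset.mem_toFinset.1 h3) with h5 | h5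
        · exact h5
        · exact absurd h5 h4
      rw [h2, mul_one]
    rw [hp] at h1
    by_contra hodd
    rw [Nat.not_even_iff_odd] at hodd
    rw [hodd.neg_one_pow] at h1
    have h6 : (2 : E) = 0 := by linear_combination h1
    exact two_ne_zero h6
  refine ⟨∑ x ∈ A, tx H E x, sum_two A hA', fun y hy => ?_⟩
  rw [sg_set A hA' (root_of hy)]
  by_cases hyA : y ∈ A
  · have h7 : s y = -1 := (Finset.mem_filter.1 hyA).2
    rw [h7, Finset.card_erase_of_mem hyA]
    have h8 : 0 < A.card := Finset.card_pos.2 ⟨y, hyA⟩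
    exact (Nat.Even.sub_odd h8 hcard odd_one).neg_one_pow
  · rw [Finset.erase_eq_of_notMem hyA, hcard.neg_one_pow]
    rcases hs y hy with h5 | h5
    · exact h5.symm
    · exact absurd (Finset.mem_filter.2 ⟨Multiset.mem_toFinset.2 hy, h5⟩) hyA

end jac

theorem sgp : S_SGP := by
  intro H E _ _ _ _
  refine ⟨fun T hT x hx => sg_sq hT (root_of hx), fun S T hS hT x hx => sg_add hS hT (root_of hx), ?_,
    fun s hs hp => exists_sg s hs (by convert hp), fun T hT => by convert prod_sg hT, ?_⟩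
  · intro T hT h
    refine eq_one_of_rt (f := pol H E) (T := T) hT fun x hx => ?_
    have := Pool.Agent.Q150.ESG.sg_rt hT (root_of hx)
    rwa [h x hx] at this
  · intro E' _ _ _ _ φ T hT x hx
    have hx' := root_of hx
    have h1 : (pol H E').eval (φ x) = 0 := by
      rw [← pol_map H φ, eval_map, eval₂_at_apply, hx', map_zero]
    have h2 := Rt1.map φ (pol_map H φ) (Pool.Agent.Q150.ESG.sg_rt hT hx')
    rw [Ideal.map_top] at h2
    refine sg_of ?_ h1 h2
    rw [← pointMap_add, hT, pointMap_zero]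

end Pool.Agent.Q161.ESG
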