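import Pool.Agent.Y700.VC
import Pool.Agent.Q161.ESM.Cor

/-! # The elliptic curves with a given j-invariant -/

set_option autoImplicit false

namespace Pool.Agent.Q161.ESG.JI

/-- the curve `y² = x³ + A x + B`, `q = (A, B)` -/
def E (q : ℤ × ℤ) : WeierstrassCurve ℚ := ⟨0, 0, 0, (q.1 : ℚ), (q.2 : ℚ)⟩

/-- the rank of the group of the rational points -/
noncomputable def rank (q : ℤ × ℤ) : ℕ := Module.finrank ℤ (E q).toAffine.Point

/-- the discriminant of the model `y² = x³ + A x + B` is `- 16 Disc` -/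
def Disc (q : ℤ × ℤ) : ℤ := 4 * q.1 ^ 3 + 27 * q.2 ^ 2

/-- the minimal models; every elliptic curve over `ℚ` is isomorphic to `E q` for exactly one such `q` -/
def Minimal (q : ℤ × ℤ) : Prop :=
  Disc q ≠ 0 ∧ ∀ p : ℕ, p.Prime → ¬ ((p : ℤ) ^ 4 ∣ q.1 ∧ (p : ℤ) ^ 6 ∣ q.2)

/-- the `j`-invariant of `E q` -/
def jinv (q : ℤ × ℤ) : ℚ := 1728 * (4 * (q.1 : ℚ) ^ 3) / (Disc q : ℚ)

/-- the naive height -/
def height (q : ℤ × ℤ) : ℝ := max (4 * |(q.1 : ℝ)| ^ 3) (27 * (q.2 : ℝ) ^ 2)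

/-- the prime-to-6 part of the conductor of a minimal model: the product over the primes `p ≥ 5`
dividing `Disc` of `p` (multiplicative reduction: `p ∤ A`) or `p²` (additive reduction: `p ∣ A`) -/
def Cond6 (q : ℤ × ℤ) : ℕ :=
  ∏ p ∈ (Disc q).natAbs.primeFactors.filter (fun p => 5 ≤ p), if (p : ℤ) ∣ q.1 then p ^ 2 else p

section

variable {a b : ℤ}

/-- `q` is a scaled model of the twist by `D` -/
def Mod (a b D : ℤ) (n : ℕ) (q : ℤ × ℤ) : Prop :=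
  0 < n ∧ (n : ℤ) ^ 4 * q.1 = a * D ^ 2 ∧ (n : ℤ) ^ 6 * q.2 = b * D ^ 3

theorem rank_mod {D : ℤ} {n : ℕ} {q : ℤ × ℤ} (h : Mod a b D n q) (hq : Disc q ≠ 0) :
    rank q = Pool.Agent.Q161.EA.rank a b D := by
  obtain ⟨h0, h1, h2⟩ := h
  have hn : (n : ℚ) ≠ 0 := by exact_mod_cast h0.ne'
  have h1' : (n : ℚ) ^ 4 * q.1 = a * D ^ 2 := by exact_mod_cast h1
  have h2' : (n : ℚ) ^ 6 * q.2 = b * D ^ 3 := by exact_mod_cast h2
  have hv : Pool.Agent.Y700.VR (Pool.Agent.Q161.EA.curve a b D) (E q) (n : ℚ) 0 0 0 := by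
    refine ⟨hn, ?_, ?_, ?_, ?_, ?_⟩ <;> simp [E, Pool.Agent.Q161.EA.curve, h1', h2']
  have hΔ : (E q).Δ ≠ 0 := by
    have : (E q).Δ = -16 * (Disc q : ℚ) := by
      simp only [E, Disc, WeierstrassCurve.Δ, WeierstrassCurve.b₂, WeierstrassCurve.b₄,
        WeierstrassCurve.b₆, WeierstrassCurve.b₈]
      push_cast
      ring
    rw [this]
    exact mul_ne_zero (by norm_num) (by exact_mod_cast hq)
  exact (hv.equiv hΔ).toIntLinearEquiv.finrank_eq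

theorem exists_mod (ha : a ≠ 0) (hd : 4 * a ^ 3 + 27 * b ^ 2 ≠ 0) {D : ℤ} (hD : D ≠ 0) :
    ∃ (n : ℕ) (q : ℤ × ℤ), Mod a b D n q ∧ Minimal q := by
  classical
  have haD : a * D ^ 2 ≠ 0 := mul_ne_zero ha (pow_ne_zero 2 hD)
  let S : Finset ℕ := (Finset.Icc 1 (a * D ^ 2).natAbs).filter
    (fun n => (n : ℤ) ^ 4 ∣ a * D ^ 2 ∧ (n : ℤ) ^ 6 ∣ b * D ^ 3)
  have hmemS : ∀ n : ℕ, 0 < n → (n : ℤ) ^ 4 ∣ a * D ^ 2 → (n : ℤ) ^ 6 ∣ b * D ^ 3 → n ∈ S := by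
    intro n hn h4 h6
    refine Finset.mem_filter.2 ⟨Finset.mem_Icc.2 ⟨hn, ?_⟩, h4, h6⟩
    have h5 : (n : ℤ) ∣ a * D ^ 2 := (dvd_pow_self _ (by norm_num)).trans h4
    exact Nat.le_of_dvd (Int.natAbs_pos.2 haD) (Int.natCast_dvd.1 h5)
  have h1 : (1 : ℕ) ∈ S := hmemS 1 one_pos (by simp) (by simp)
  obtain ⟨n, hn, hmax⟩ := S.exists_max_image id ⟨1, h1⟩
  obtain ⟨hn1, ⟨A, hA⟩, ⟨B, hB⟩⟩ := Finset.mem_filter.1 hn
  have hn0 : 0 < n := (Finset.mem_Icc.1 hn1).1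
  have hmod : Mod a b D n (A, B) := ⟨hn0, hA.symm, hB.symm⟩
  have hn0' : (n : ℤ) ≠ 0 := by exact_mod_cast hn0.ne'
  refine ⟨n, (A, B), hmod, ?_, ?_⟩
  · intro h0
    have h2 : (n : ℤ) ^ 12 * Disc (A, B) = D ^ 6 * (4 * a ^ 3 + 27 * b ^ 2) := by
      simp only [Disc]
      calc (n : ℤ) ^ 12 * (4 * A ^ 3 + 27 * B ^ 2) =
          4 * ((n : ℤ) ^ 4 * A) ^ 3 + 27 * ((n : ℤ) ^ 6 * B) ^ 2 := by ring
        _ = _ := by rw [← hA, ← hB]; ring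
    rw [h0, mul_zero] at h2
    exact (mul_ne_zero (pow_ne_zero 6 hD) hd) h2.symm
  · rintro p hp ⟨⟨A', hA'⟩, ⟨B', hB'⟩⟩
    have h3 : n * p ∈ S := by
      refine hmemS _ (Nat.mul_pos hn0 hp.pos) ⟨A', ?_⟩ ⟨B', ?_⟩
      · rw [hA]
        change A = _ at hA'
        rw [hA']
        push_cast
        ring
      · rw [hB]
        change B = _ at hB'
        rw [hB']
        push_cast
        ring
    have h4 := hmax _ h3
    simp only [id] at h4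
    have h5 := hp.two_le
    nlinarith

theorem disc_mod {D : ℤ} {n : ℕ} {q : ℤ × ℤ} (h : Mod a b D n q) :
    (n : ℤ) ^ 12 * Disc q = D ^ 6 * (4 * a ^ 3 + 27 * b ^ 2) := by
  obtain ⟨-, h1, h2⟩ := h
  simp only [Disc]
  calc (n : ℤ) ^ 12 * (4 * q.1 ^ 3 + 27 * q.2 ^ 2) =
      4 * ((n : ℤ) ^ 4 * q.1) ^ 3 + 27 * ((n : ℤ) ^ 6 * q.2) ^ 2 := by ring
    _ = _ := by rw [h1, h2]; ring

/-- uniqueness of minimal models -/
theorem uniq {q q' : ℤ × ℤ} (hq : Minimal q) (hq' : Minimal q') {m n : ℕ} (hm : 0 < m) (hn : 0 < n)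
    (h4 : (n : ℤ) ^ 4 * q'.1 = (m : ℤ) ^ 4 * q.1) (h6 : (n : ℤ) ^ 6 * q'.2 = (m : ℤ) ^ 6 * q.2) :
    q = q' := by
  obtain ⟨g, m', n', hg, hmn, rfl, rfl⟩ := Nat.exists_coprime' (m := m) (n := n) (Nat.gcd_pos_of_pos_left n hm)
  have hg0 : (g : ℤ) ≠ 0 := by exact_mod_cast hg.ne'
  have hm' : 0 < m' := Nat.pos_of_mul_pos_right hm
  have hn' : 0 < n' := Nat.pos_of_mul_pos_right hn
  have e4 : (n' : ℤ) ^ 4 * q'.1 = (m' : ℤ) ^ 4 * q.1 := by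
    apply mul_left_cancel₀ (pow_ne_zero 4 hg0)
    push_cast at h4
    linear_combination h4
  have e6 : (n' : ℤ) ^ 6 * q'.2 = (m' : ℤ) ^ 6 * q.2 := by
    apply mul_left_cancel₀ (pow_ne_zero 6 hg0)
    push_cast at h6
    linear_combination h6
  have hm1 : m' = 1 := by
    by_contra hne
    obtain ⟨p, hp, hpm⟩ := Nat.exists_prime_and_dvd hne
    have hpn : ¬ p ∣ n' := fun h => Nat.not_coprime_of_dvd_of_dvd hp.one_lt hpm h hmn
    have hcop : IsCoprime (p : ℤ) (n' : ℤ) := by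
      rw [Nat.isCoprime_iff_coprime]
      exact (Nat.Prime.coprime_iff_not_dvd hp).2 hpn
    have hpm' : (p : ℤ) ∣ (m' : ℤ) := by exact_mod_cast hpm
    refine hq'.2 p hp ⟨?_, ?_⟩
    · have h1 : (p : ℤ) ^ 4 ∣ (n' : ℤ) ^ 4 * q'.1 := by
        rw [e4]
        exact (pow_dvd_pow_of_dvd hpm' 4).mul_right _
      exact (hcop.pow).dvd_of_dvd_mul_left h1
    · have h1 : (p : ℤ) ^ 6 ∣ (n' : ℤ) ^ 6 * q'.2 := by
        rw [e6]
        exact (pow_dvd_pow_of_dvd hpm' 6).mul_right _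
      exact (hcop.pow).dvd_of_dvd_mul_left h1
  have hn1 : n' = 1 := by
    by_contra hne
    obtain ⟨p, hp, hpn⟩ := Nat.exists_prime_and_dvd hne
    have hpm : ¬ p ∣ m' := fun h => Nat.not_coprime_of_dvd_of_dvd hp.one_lt h hpn hmn
    have hcop : IsCoprime (p : ℤ) (m' : ℤ) := by
      rw [Nat.isCoprime_iff_coprime]
      exact (Nat.Prime.coprime_iff_not_dvd hp).2 hpm
    have hpn' : (p : ℤ) ∣ (n' : ℤ) := by exact_mod_cast hpn
    refine hq.2 p hp ⟨?_, ?_⟩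
    · have h1 : (p : ℤ) ^ 4 ∣ (m' : ℤ) ^ 4 * q.1 := by
        rw [← e4]
        exact (pow_dvd_pow_of_dvd hpn' 4).mul_right _
      exact (hcop.pow).dvd_of_dvd_mul_left h1
    · have h1 : (p : ℤ) ^ 6 ∣ (m' : ℤ) ^ 6 * q.2 := by
        rw [← e6]
        exact (pow_dvd_pow_of_dvd hpn' 6).mul_right _
      exact (hcop.pow).dvd_of_dvd_mul_left h1
  subst hm1
  subst hn1
  simp only [Nat.cast_one, one_pow, one_mul] at e4 e6
  exact Prod.ext e4.symm e6.symm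

/-- different twists have different models -/
theorem mod_inj (ha : a ≠ 0) (hb : b ≠ 0) {D D' : ℤ} (hD : Squarefree D) (hD' : Squarefree D')
    {n n' : ℕ} {q : ℤ × ℤ} (h : Mod a b D n q) (h' : Mod a b D' n' q) : D = D' := by
  obtain ⟨h0, h1, h2⟩ := h
  obtain ⟨h0', h1', h2'⟩ := h'
  have hn : (n : ℤ) ≠ 0 := by exact_mod_cast h0.ne'
  have hn' : (n' : ℤ) ≠ 0 := by exact_mod_cast h0'.ne'
  have hDne := hD.ne_zero
  have hDne' := hD'.ne_zero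
  have hq1 : q.1 ≠ 0 := by
    intro h
    rw [h, mul_zero] at h1
    exact (mul_ne_zero ha (pow_ne_zero 2 hDne)) h1.symm
  -- `D n'² = D' n²`
  have key : D * (n' : ℤ) ^ 2 = D' * (n : ℤ) ^ 2 := by
    have e1 : a * (D * (n' : ℤ) ^ 2) ^ 2 = a * (D' * (n : ℤ) ^ 2) ^ 2 := by
      linear_combination (-(n' : ℤ) ^ 4) * h1 + (n : ℤ) ^ 4 * h1'
    have e2 : b * (D * (n' : ℤ) ^ 2) ^ 3 = b * (D' * (n : ℤ) ^ 2) ^ 3 := by
      linear_combination (-(n' : ℤ) ^ 6) * h2 + (n : ℤ) ^ 6 * h2'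
    have e3 := mul_left_cancel₀ hb e2
    have h3 : Odd 3 := by decide
    exact h3.strictMono_pow.injective e3
  have hass : Associated D D' := by
    have hu : (n' : ℤ) ^ 2 ≠ 0 := pow_ne_zero 2 hn'
    have hdvd : ∀ {x y : ℤ} {u v : ℤ}, Squarefree x → u ≠ 0 → x * u ^ 2 = y * v ^ 2 → v ≠ 0 → x ∣ y := by
      intro x y u v hx hu0 hxy hv0
      obtain ⟨g, u', v', hg, hcop, hu', hv'⟩ : ∃ g u' v' : ℤ, g ≠ 0 ∧ IsCoprime u' v' ∧ u = g * u' ∧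
          v = g * v' := by
        refine ⟨(Int.gcd u v : ℤ), u / Int.gcd u v, v / Int.gcd u v, ?_, ?_, ?_, ?_⟩
        · have : Int.gcd u v ≠ 0 := by
            rw [Ne, Int.gcd_eq_zero_iff]
            tauto
          exact_mod_cast this
        · exact Int.isCoprime_iff_gcd_eq_one.2 (Int.gcd_ediv_gcd_ediv_gcd (by
            have : Int.gcd u v ≠ 0 := by
              rw [Ne, Int.gcd_eq_zero_iff]
              tauto
            exact Nat.pos_of_ne_zero this))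
        · exact (Int.mul_ediv_cancel' (Int.gcd_dvd_left ..)).symm
        · exact (Int.mul_ediv_cancel' (Int.gcd_dvd_right ..)).symm
      have e : x * u' ^ 2 = y * v' ^ 2 := by
        apply mul_left_cancel₀ (pow_ne_zero 2 hg)
        rw [hu', hv'] at hxy
        linear_combination hxy
      have h5 : v' ^ 2 ∣ x := by
        have : v' ^ 2 ∣ x * u' ^ 2 := ⟨y, by rw [e]; ring⟩
        exact (hcop.symm.pow).dvd_of_dvd_mul_right this
      have h6 : IsUnit v' := hx v' (by rwa [← pow_two])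
      have h7 : v' ^ 2 = 1 := by
        rcases Int.isUnit_iff.1 h6 with h | h <;> rw [h] <;> norm_num
      rw [h7, mul_one] at e
      exact ⟨u' ^ 2, e.symm⟩
    exact associated_of_dvd_dvd (hdvd hD hn' key hn) (hdvd hD' hn key.symm hn')
  rcases Int.associated_iff.1 hass with h | h
  · exact h
  · exfalso
    rw [h] at key
    have h8 : D' * ((n : ℤ) ^ 2 + (n' : ℤ) ^ 2) = 0 := by linear_combination -key
    rcases mul_eq_zero.1 h8 with h9 | h9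
    · exact hDne' h9
    · have : 0 < (n : ℤ) ^ 2 + (n' : ℤ) ^ 2 := by positivity
      omega

/-- every curve with the same `j`-invariant is a twist -/
theorem exists_par (ha : a ≠ 0) (hb : b ≠ 0) {q : ℤ × ℤ} (hq1 : q.1 ≠ 0) (hq2 : q.2 ≠ 0)
    (hj : q.1 ^ 3 * b ^ 2 = a ^ 3 * q.2 ^ 2) :
    ∃ (D : ℤ) (m n : ℕ), Squarefree D ∧ 0 < m ∧ 0 < n ∧
      (n : ℤ) ^ 4 * q.1 = (m : ℤ) ^ 4 * (a * D ^ 2) ∧ (n : ℤ) ^ 6 * q.2 = (m : ℤ) ^ 6 * (b * D ^ 3) := by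
  -- `t = (B a) / (A b) = u / v`, `u v = D r²`, so `t = D (r / v)²`
  set u : ℤ := q.2 * a with hu
  set v : ℤ := q.1 * b with hv
  have hu0 : u ≠ 0 := mul_ne_zero hq2 ha
  have hv0 : v ≠ 0 := mul_ne_zero hq1 hb
  have huv : (u * v).natAbs ≠ 0 := Int.natAbs_ne_zero.2 (mul_ne_zero hu0 hv0)
  obtain ⟨d, r, hdr, hd⟩ := Nat.sq_mul_squarefree (u * v).natAbs
  have hr0 : r ≠ 0 := by
    rintro rfl
    rw [zero_pow two_ne_zero, zero_mul] at hdr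
    exact huv hdr.symm
  obtain ⟨D, hDsq, hD⟩ : ∃ D : ℤ, Squarefree D ∧ u * v = D * (r : ℤ) ^ 2 := by
    rcases Int.natAbs_eq (u * v) with h | h
    · refine ⟨(d : ℤ), Int.squarefree_natCast.2 hd, ?_⟩
      rw [h, ← hdr]
      push_cast
      ring
    · refine ⟨-(d : ℤ), ?_, ?_⟩
      · rw [← Int.squarefree_natAbs, Int.natAbs_neg, Int.natAbs_natCast]
        exact hd
      · rw [h, ← hdr]
        push_cast
        ring
  refine ⟨D, r, v.natAbs, hDsq, Nat.pos_of_ne_zero hr0, Int.natAbs_pos.2 hv0, ?_, ?_⟩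
  · have h1 : ((v.natAbs : ℕ) : ℤ) ^ 4 = v ^ 4 := by
      rw [Int.natCast_natAbs, Even.pow_abs (by decide)]
    rw [h1]
    have h2 : (r : ℤ) ^ 4 * (a * D ^ 2) = a * (u * v) ^ 2 := by rw [hD]; ring
    rw [h2]
    -- `v⁴ A = a u² v²`, that is `v² A = a u²`
    have h3 : v ^ 2 * q.1 = a * u ^ 2 := by
      rw [hu, hv]
      linear_combination hj
    linear_combination v ^ 2 * h3
  · have h1 : ((v.natAbs : ℕ) : ℤ) ^ 6 = v ^ 6 := by
      rw [Int.natCast_natAbs, Even.pow_abs (by decide)]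
    rw [h1]
    have h2 : (r : ℤ) ^ 6 * (b * D ^ 3) = b * (u * v) ^ 3 := by rw [hD]; ring
    rw [h2]
    -- `v³ B = b u³`
    have h3 : v ^ 3 * q.2 = b * u ^ 3 := by
      rw [hu, hv]
      linear_combination b * q.2 * hj
    linear_combination v ^ 3 * h3

/-- every minimal model with the same `j`-invariant is a model of a twist -/
theorem exists_par' (ha : a ≠ 0) (hb : b ≠ 0) (hd : 4 * a ^ 3 + 27 * b ^ 2 ≠ 0) {q : ℤ × ℤ}
    (hq : Minimal q) (hq1 : q.1 ≠ 0) (hq2 : q.2 ≠ 0) (hj : q.1 ^ 3 * b ^ 2 = a ^ 3 * q.2 ^ 2) :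
    ∃ (D : ℤ) (n : ℕ), Squarefree D ∧ Mod a b D n q := by
  obtain ⟨D, m, n, hD, hm, hn, h1, h2⟩ := exists_par ha hb hq1 hq2 hj
  obtain ⟨k, q', hq', hmin⟩ := exists_mod ha hd hD.ne_zero
  have : q' = q := by
    refine uniq hmin hq (m := m * k) (n := n) (Nat.mul_pos hm hq'.1) hn ?_ ?_
    · rw [h1, ← hq'.2.1]
      push_cast
      ring
    · rw [h2, ← hq'.2.2]
      push_cast
      ring
  rw [this] at hq'
  exact ⟨D, k, hD, hq'⟩

/-- the scaling factor is bounded -/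
theorem n_le (ha : a ≠ 0) {D : ℤ} (hD : Squarefree D) {n : ℕ} {q : ℤ × ℤ} (h : Mod a b D n q) :
    (n : ℤ) ≤ a ^ 2 := by
  obtain ⟨h0, h1, -⟩ := h
  have hdvd : (n : ℤ) ^ 4 ∣ a * D ^ 2 := ⟨q.1, h1.symm⟩
  set g : ℤ := (Int.gcd (n : ℤ) D : ℤ) with hg
  have hgpos : 0 < Int.gcd (n : ℤ) D := by
    apply Nat.pos_of_ne_zero
    rw [Ne, Int.gcd_eq_zero_iff]
    intro h
    exact h0.ne' (by exact_mod_cast h.1)
  have hg0 : g ≠ 0 := by rw [hg]; exact_mod_cast hgpos.ne'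
  obtain ⟨n1, hn1⟩ : g ∣ (n : ℤ) := Int.gcd_dvd_left ..
  obtain ⟨D1, hD1⟩ : g ∣ D := Int.gcd_dvd_right ..
  have hcop : IsCoprime n1 D1 := by
    rw [Int.isCoprime_iff_gcd_eq_one]
    have h2 := Int.gcd_mul_left g n1 D1
    rw [← hn1, ← hD1] at h2
    have h3 : g.natAbs = Int.gcd (n : ℤ) D := by rw [hg, Int.natAbs_natCast]
    rw [h3] at h2
    exact Nat.eq_of_mul_eq_mul_left hgpos (by rw [mul_one]; exact h2.symm)
  have hcop2 : IsCoprime g D1 := by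
    have h4 : Squarefree (g * D1) := by rw [← hD1]; exact hD
    exact (squarefree_mul_iff.1 h4).1.isCoprime
  have h5 : g ^ 2 * n1 ^ 4 ∣ a * D1 ^ 2 := by
    have h6 : g ^ 2 * (g ^ 2 * n1 ^ 4) ∣ g ^ 2 * (a * D1 ^ 2) := by
      have e1 : g ^ 2 * (g ^ 2 * n1 ^ 4) = (n : ℤ) ^ 4 := by rw [hn1]; ring
      have e2 : g ^ 2 * (a * D1 ^ 2) = a * D ^ 2 := by rw [hD1]; ring
      rw [e1, e2]
      exact hdvd
    exact (mul_dvd_mul_iff_left (pow_ne_zero 2 hg0)).1 h6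
  have hn1a : n1 ∣ a := by
    have h6 : n1 ∣ a * D1 ^ 2 := ((dvd_pow_self n1 (by norm_num)).mul_left (g ^ 2)).trans h5
    exact (hcop.pow_right).dvd_of_dvd_mul_right h6
  have hga : g ∣ a := by
    have h6 : g ∣ a * D1 ^ 2 := ((dvd_pow_self g (by norm_num)).mul_right (n1 ^ 4)).trans h5
    exact (hcop2.pow_right).dvd_of_dvd_mul_right h6
  have h7 : |n1| ≤ |a| := by
    have := Nat.le_of_dvd (Int.natAbs_pos.2 ha) (Int.natAbs_dvd_natAbs.2 hn1a)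
    rw [Int.abs_eq_natAbs, Int.abs_eq_natAbs]
    exact_mod_cast this
  have h8 : |g| ≤ |a| := by
    have := Nat.le_of_dvd (Int.natAbs_pos.2 ha) (Int.natAbs_dvd_natAbs.2 hga)
    rw [Int.abs_eq_natAbs, Int.abs_eq_natAbs]
    exact_mod_cast this
  calc (n : ℤ) ≤ |(n : ℤ)| := le_abs_self _
    _ = |g| * |n1| := by rw [hn1, abs_mul]
    _ ≤ |a| * |a| := mul_le_mul h8 h7 (abs_nonneg _) (abs_nonneg _)
    _ = a ^ 2 := by rw [← abs_mul, ← pow_two, abs_of_nonneg (sq_nonneg a)]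

theorem height_mod {D : ℤ} {n : ℕ} {q : ℤ × ℤ} (h : Mod a b D n q) :
    (n : ℝ) ^ 12 * height q = |(D : ℝ)| ^ 6 * height (a, b) := by
  obtain ⟨-, h1, h2⟩ := h
  have h1' : (n : ℝ) ^ 4 * q.1 = a * D ^ 2 := by exact_mod_cast h1
  have h2' : (n : ℝ) ^ 6 * q.2 = b * D ^ 3 := by exact_mod_cast h2
  have hn : (0 : ℝ) ≤ (n : ℝ) ^ 12 := by positivity
  have hD : (0 : ℝ) ≤ |(D : ℝ)| ^ 6 := by positivity
  unfold height
  rw [mul_max_of_nonneg _ _ hn, mul_max_of_nonneg _ _ hD]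
  have e1 : (n : ℝ) ^ 12 * (4 * |(q.1 : ℝ)| ^ 3) = |(D : ℝ)| ^ 6 * (4 * |(a : ℝ)| ^ 3) := by
    have h3 : (n : ℝ) ^ 4 * |(q.1 : ℝ)| = |(a : ℝ)| * |(D : ℝ)| ^ 2 := by
      have := congrArg abs h1'
      rw [abs_mul, abs_mul, abs_pow, abs_pow, Nat.abs_cast] at this
      exact this
    calc (n : ℝ) ^ 12 * (4 * |(q.1 : ℝ)| ^ 3) = 4 * ((n : ℝ) ^ 4 * |(q.1 : ℝ)|) ^ 3 := by ring
      _ = _ := by rw [h3]; ring
  have e2 : (n : ℝ) ^ 12 * (27 * (q.2 : ℝ) ^ 2) = |(D : ℝ)| ^ 6 * (27 * (b : ℝ) ^ 2) := by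
    have h4 : |(D : ℝ)| ^ 6 = (D : ℝ) ^ 6 := Even.pow_abs (by decide) _
    rw [h4]
    calc (n : ℝ) ^ 12 * (27 * (q.2 : ℝ) ^ 2) = 27 * ((n : ℝ) ^ 6 * (q.2 : ℝ)) ^ 2 := by ring
      _ = _ := by rw [h2']; ring
  rw [e1, e2]

end

end Pool.Agent.Q161.ESG.JI
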