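import Pool.Agent.Q161.ESG.JInv
import Pool.Agent.Q161.OD.Sqf

/-! # The elliptic curves with a given j-invariant: the orderings -/

set_option autoImplicit false

namespace Pool.Agent.Q161.ESG.JI

open Finset

/-- `I` is one of the three orderings of the minimal models: the naive height; the absolute value of the
minimal discriminant, which is `16 |Disc| / u^12` with `u ∈ {1, 2, 3, 6}`; the conductor, which is `Cond6` times
a divisor of `2^8 3^5` (only these bounds are used) -/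
def Ordering (I : ℤ × ℤ → ℝ) : Prop :=
  (∀ q, Minimal q → I q = height q) ∨
  (∀ q, Minimal q → 16 * |(Disc q : ℝ)| / 6 ^ 12 ≤ I q ∧ I q ≤ 16 * |(Disc q : ℝ)|) ∨
  ∀ q, Minimal q → (Cond6 q : ℝ) ≤ I q ∧ I q ≤ 2 ^ 8 * 3 ^ 5 * (Cond6 q : ℝ)

section

variable {a b : ℤ}

theorem cond_upper (hd : 4 * a ^ 3 + 27 * b ^ 2 ≠ 0) {D : ℤ} (hD : D ≠ 0) {n : ℕ}
    {q : ℤ × ℤ} (h : Mod a b D n q) (hq : Disc q ≠ 0) :
    (Cond6 q : ℝ) ≤ ((4 * a ^ 3 + 27 * b ^ 2 : ℤ) : ℝ) ^ 2 * |(D : ℝ)| ^ 2 := by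
  set N : ℕ := (D * (4 * a ^ 3 + 27 * b ^ 2)).natAbs with hN
  have hN0 : N ≠ 0 := Int.natAbs_ne_zero.2 (mul_ne_zero hD hd)
  have h1 : Cond6 q ≤ (∏ p ∈ N.primeFactors, p) ^ 2 := by
    unfold Cond6
    rw [← prod_pow]
    have hsub : (Disc q).natAbs.primeFactors.filter (fun p => 5 ≤ p) ⊆ N.primeFactors := by
      intro p hp
      obtain ⟨hp1, -⟩ := mem_filter.1 hp
      have hpp := Nat.prime_of_mem_primeFactors hp1
      have hpd : (p : ℤ) ∣ Disc q := Int.natCast_dvd.2 (Nat.dvd_of_mem_primeFactors hp1)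
      have h2 : (p : ℤ) ∣ D ^ 6 * (4 * a ^ 3 + 27 * b ^ 2) := by
        rw [← disc_mod h]
        exact hpd.mul_left _
      have hpp' : Prime (p : ℤ) := Nat.prime_iff_prime_int.1 hpp
      have h3 : (p : ℤ) ∣ D * (4 * a ^ 3 + 27 * b ^ 2) := by
        rcases hpp'.dvd_or_dvd h2 with h4 | h4
        · exact (hpp'.dvd_of_dvd_pow h4).mul_right _
        · exact h4.mul_left _
      exact Nat.mem_primeFactors.2 ⟨hpp, Int.natCast_dvd.1 h3, hN0⟩
    refine le_trans (prod_le_prod' (g := fun p => p ^ 2) fun p hp => ?_)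
      (prod_le_prod_of_subset_of_one_le' hsub fun p hp _ => ?_)
    · have := (Nat.prime_of_mem_primeFactors (mem_filter.1 hp).1).one_le
      split_ifs
      · exact le_rfl
      · nlinarith
    · have := (Nat.prime_of_mem_primeFactors hp).one_le
      exact Nat.one_le_pow _ _ this
  have h2 : ∏ p ∈ N.primeFactors, p ≤ N := Nat.le_of_dvd (Nat.pos_of_ne_zero hN0) (Nat.prod_primeFactors_dvd N)
  have h3 : (Cond6 q : ℝ) ≤ (N : ℝ) ^ 2 := by
    exact_mod_cast h1.trans (Nat.pow_le_pow_left h2 2)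
  refine h3.trans (le_of_eq ?_)
  have h4 : (N : ℝ) = |(D : ℝ) * ((4 * a ^ 3 + 27 * b ^ 2 : ℤ) : ℝ)| := by
    rw [hN, Nat.cast_natAbs]
    push_cast
    rfl
  rw [h4, abs_mul, mul_pow, sq_abs ((4 * a ^ 3 + 27 * b ^ 2 : ℤ) : ℝ)]
  ring

theorem cond_lower (ha : a ≠ 0) (hb : b ≠ 0) {D : ℤ} (hD : Squarefree D) {n : ℕ}
    {q : ℤ × ℤ} (h : Mod a b D n q) (hq : Disc q ≠ 0) :
    |(D : ℝ)| ^ 2 ≤ (6 * (a : ℝ) * b) ^ 2 * (Cond6 q : ℝ) := by
  set M : ℕ := (6 * a * b).natAbs with hM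
  have hM0 : M ≠ 0 := Int.natAbs_ne_zero.2 (mul_ne_zero (mul_ne_zero (by norm_num) ha) hb)
  have hDn : Squarefree D.natAbs := Int.squarefree_natAbs.2 hD
  have hprod : ∏ p ∈ D.natAbs.primeFactors, p = D.natAbs := Nat.prod_primeFactors_of_squarefree hDn
  have hsplit := prod_filter_mul_prod_filter_not D.natAbs.primeFactors (fun p => p ∣ M) (fun p => p)
  rw [hprod] at hsplit
  have h1 : ∏ p ∈ D.natAbs.primeFactors.filter (fun p => p ∣ M), p ≤ M := by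
    refine le_trans (prod_le_prod_of_subset_of_one_le' (t := M.primeFactors) ?_ fun p hp _ => ?_)
      (Nat.le_of_dvd (Nat.pos_of_ne_zero hM0) (Nat.prod_primeFactors_dvd M))
    · intro p hp
      obtain ⟨h2, h3⟩ := mem_filter.1 hp
      exact Nat.mem_primeFactors.2 ⟨Nat.prime_of_mem_primeFactors h2, h3, hM0⟩
    · exact (Nat.prime_of_mem_primeFactors hp).one_le
  have h2 : (∏ p ∈ D.natAbs.primeFactors.filter (fun p => ¬ p ∣ M), p) ^ 2 ≤ Cond6 q := by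
    unfold Cond6
    rw [← prod_pow]
    have key : ∀ p ∈ D.natAbs.primeFactors.filter (fun p => ¬ p ∣ M),
        p ∈ (Disc q).natAbs.primeFactors.filter (fun p => 5 ≤ p) ∧ (p : ℤ) ∣ q.1 := by
      intro p hp
      obtain ⟨hp1, hp2⟩ := mem_filter.1 hp
      have hpp := Nat.prime_of_mem_primeFactors hp1
      have hpp' : Prime (p : ℤ) := Nat.prime_iff_prime_int.1 hpp
      have hpD : (p : ℤ) ∣ D := Int.natCast_dvd.2 (Nat.dvd_of_mem_primeFactors hp1)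
      have hpM : ¬ (p : ℤ) ∣ 6 * a * b := fun h5 => hp2 (Int.natCast_dvd.1 h5)
      have hpa : ¬ (p : ℤ) ∣ a := fun h5 => hpM ((h5.mul_left 6).mul_right b)
      have hp5 : 5 ≤ p := by
        by_contra hlt
        have h6 : ¬ p ∣ 6 := fun h5 => hpM ((Int.natCast_dvd_natCast.2 h5 |>.mul_right a).mul_right b)
        have h7 := hpp.two_le
        interval_cases p
        · exact h6 (by norm_num)
        · exact h6 (by norm_num)
        · exact absurd hpp (by norm_num)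
      obtain ⟨h0, e1, e2⟩ := h
      have hpn : ¬ (p : ℤ) ∣ (n : ℤ) := by
        intro h5
        have h6 : (p : ℤ) ^ 4 ∣ a * D ^ 2 := by
          rw [← e1]
          exact (pow_dvd_pow_of_dvd h5 4).mul_right _
        have hcop : IsCoprime ((p : ℤ) ^ 4) a := ((hpp'.coprime_iff_not_dvd).2 hpa).pow_left
        have h7 : (p : ℤ) ^ 4 ∣ D ^ 2 := hcop.dvd_of_dvd_mul_left h6
        obtain ⟨D', rfl⟩ := hpD
        have hp0 : (p : ℤ) ≠ 0 := hpp'.ne_zero
        have h8 : (p : ℤ) ^ 2 ∣ D' ^ 2 := by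
          have h9 : (p : ℤ) ^ 2 * (p : ℤ) ^ 2 ∣ (p : ℤ) ^ 2 * D' ^ 2 := by
            have e3 : (p : ℤ) ^ 2 * (p : ℤ) ^ 2 = (p : ℤ) ^ 4 := by ring
            have e4 : (p : ℤ) ^ 2 * D' ^ 2 = ((p : ℤ) * D') ^ 2 := by ring
            rw [e3, e4]
            exact h7
          exact (mul_dvd_mul_iff_left (pow_ne_zero 2 hp0)).1 h9
        have h10 : (p : ℤ) ∣ D' := hpp'.dvd_of_dvd_pow ((dvd_pow_self _ two_ne_zero).trans h8)
        exact hpp'.not_unit (hD _ (mul_dvd_mul_left _ h10))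
      have hcop4 : IsCoprime (p : ℤ) ((n : ℤ) ^ 4) := ((hpp'.coprime_iff_not_dvd).2 hpn).pow_right
      have hcop6 : IsCoprime (p : ℤ) ((n : ℤ) ^ 6) := ((hpp'.coprime_iff_not_dvd).2 hpn).pow_right
      have hA : (p : ℤ) ∣ q.1 := by
        refine hcop4.dvd_of_dvd_mul_left ?_
        rw [e1]
        exact ((hpD.trans (dvd_pow_self D two_ne_zero)).mul_left a)
      have hB : (p : ℤ) ∣ q.2 := by
        refine hcop6.dvd_of_dvd_mul_left ?_
        rw [e2]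
        exact ((hpD.trans (dvd_pow_self D three_ne_zero)).mul_left b)
      refine ⟨mem_filter.2 ⟨Nat.mem_primeFactors.2 ⟨hpp, Int.natCast_dvd.1 ?_, Int.natAbs_ne_zero.2 hq⟩, hp5⟩, hA⟩
      unfold Disc
      exact dvd_add ((hA.trans (dvd_pow_self _ three_ne_zero)).mul_left 4)
        ((hB.trans (dvd_pow_self _ two_ne_zero)).mul_left 27)
    refine le_trans (le_of_eq (prod_congr rfl fun p hp => ?_))
      (prod_le_prod_of_subset_of_one_le' (fun p hp => (key p hp).1) fun p hp _ => ?_)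
    · rw [if_pos (key p hp).2]
    · have := (Nat.prime_of_mem_primeFactors (mem_filter.1 hp).1).one_le
      split_ifs
      · exact Nat.one_le_pow _ _ this
      · exact this
  have h3 : D.natAbs ^ 2 ≤ M ^ 2 * Cond6 q := by
    rw [← hsplit, mul_pow]
    exact Nat.mul_le_mul (Nat.pow_le_pow_left h1 2) h2
  have h4 : (D.natAbs : ℝ) ^ 2 ≤ (M : ℝ) ^ 2 * (Cond6 q : ℝ) := by exact_mod_cast h3
  have e5 : (D.natAbs : ℝ) = |(D : ℝ)| := by
    rw [Nat.cast_natAbs]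
    push_cast
    rfl
  have e6 : (M : ℝ) ^ 2 = (6 * (a : ℝ) * b) ^ 2 := by
    rw [hM, Nat.cast_natAbs]
    push_cast
    exact sq_abs _
  rw [e5, e6] at h4
  exact h4

theorem ord_bounds (I : ℤ × ℤ → ℝ) (hI : Ordering I) : ∃ κ : ℕ, 0 < κ ∧ ∀ a b : ℤ, a ≠ 0 → b ≠ 0 →
    4 * a ^ 3 + 27 * b ^ 2 ≠ 0 → ∃ c1 c2 : ℝ, 0 < c1 ∧ 0 < c2 ∧ ∀ (D : ℤ) (n : ℕ) (q : ℤ × ℤ),
      Squarefree D → Mod a b D n q → Minimal q → c1 * |(D : ℝ)| ^ κ ≤ I q ∧ I q ≤ c2 * |(D : ℝ)| ^ κ := by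
  have hn12 : ∀ {a b D : ℤ} {n : ℕ} {q : ℤ × ℤ}, a ≠ 0 → Squarefree D → Mod a b D n q →
      (1 : ℝ) ≤ (n : ℝ) ^ 12 ∧ (n : ℝ) ^ 12 ≤ (a : ℝ) ^ 24 := by
    intro a b D n q ha hD h
    have h1 : (1 : ℝ) ≤ n := by exact_mod_cast h.1
    have h2 : (n : ℝ) ≤ (a : ℝ) ^ 2 := by exact_mod_cast n_le ha hD h
    refine ⟨one_le_pow₀ h1, ?_⟩
    calc (n : ℝ) ^ 12 ≤ ((a : ℝ) ^ 2) ^ 12 := pow_le_pow_left₀ (by linarith) h2 12
      _ = (a : ℝ) ^ 24 := by ring
  have gen : ∀ {a : ℤ} {N12 x y : ℝ}, a ≠ 0 → 1 ≤ N12 → N12 ≤ (a : ℝ) ^ 24 → 0 ≤ y → N12 * x = y →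
      y / (a : ℝ) ^ 24 ≤ x ∧ x ≤ y := by
    intro a N12 x y ha h1 h2 hy hxy
    have ha' : (0 : ℝ) < (a : ℝ) ^ 24 := lt_of_lt_of_le (by linarith) h2
    have hx : 0 ≤ x := by
      by_contra hneg
      push Not at hneg
      nlinarith
    constructor
    · rw [div_le_iff₀ ha']
      nlinarith
    · nlinarith
  rcases hI with hI | hI | hI
  · refine ⟨6, by norm_num, fun a b ha hb hd => ⟨height (a, b) / (a : ℝ) ^ 24, height (a, b), ?_, ?_, ?_⟩⟩
    · have h1 : 0 < height (a, b) := lt_of_lt_of_le (by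
        have : (0 : ℝ) < |(a : ℝ)| := abs_pos.2 (by exact_mod_cast ha)
        positivity) (le_max_left _ _)
      have h2 : (0 : ℝ) < (a : ℝ) ^ 24 := by
        have : (a : ℝ) ≠ 0 := by exact_mod_cast ha
        positivity
      exact div_pos h1 h2
    · exact lt_of_lt_of_le (by
        have : (0 : ℝ) < |(a : ℝ)| := abs_pos.2 (by exact_mod_cast ha)
        positivity) (le_max_left _ _)
    · intro D n q hD h hq
      rw [hI q hq]
      obtain ⟨h1, h2⟩ := hn12 ha hD h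
      have h3 := gen ha h1 h2 (by
        have : 0 ≤ height (a, b) := le_trans (by positivity) (le_max_left _ _)
        positivity) (height_mod h)
      refine ⟨le_trans (le_of_eq ?_) h3.1, le_trans h3.2 (le_of_eq ?_)⟩ <;> ring
  · refine ⟨6, by norm_num, fun a b ha hb hd =>
      ⟨16 * |((4 * a ^ 3 + 27 * b ^ 2 : ℤ) : ℝ)| / (a : ℝ) ^ 24 / 6 ^ 12,
        16 * |((4 * a ^ 3 + 27 * b ^ 2 : ℤ) : ℝ)|, ?_, ?_, ?_⟩⟩
    · have h1 : (0 : ℝ) < |((4 * a ^ 3 + 27 * b ^ 2 : ℤ) : ℝ)| := abs_pos.2 (by exact_mod_cast hd)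
      have h2 : (a : ℝ) ≠ 0 := by exact_mod_cast ha
      positivity
    · have h1 : (0 : ℝ) < |((4 * a ^ 3 + 27 * b ^ 2 : ℤ) : ℝ)| := abs_pos.2 (by exact_mod_cast hd)
      positivity
    · intro D n q hD h hq
      obtain ⟨h1, h2⟩ := hn12 ha hD h
      have e : (n : ℝ) ^ 12 * |(Disc q : ℝ)| = |(D : ℝ)| ^ 6 * |((4 * a ^ 3 + 27 * b ^ 2 : ℤ) : ℝ)| := by
        have e0 : (n : ℝ) ^ 12 * (Disc q : ℝ) = (D : ℝ) ^ 6 * ((4 * a ^ 3 + 27 * b ^ 2 : ℤ) : ℝ) := by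
          exact_mod_cast disc_mod h
        have e1 := congrArg abs e0
        rw [abs_mul, abs_mul, abs_pow, abs_pow, Nat.abs_cast] at e1
        exact e1
      have h3 := gen ha h1 h2 (by positivity) e
      obtain ⟨h4, h5⟩ := hI q hq
      constructor
      · refine le_trans (le_trans (le_of_eq ?_) (div_le_div_of_nonneg_right
          (mul_le_mul_of_nonneg_left h3.1 (by norm_num : (0 : ℝ) ≤ 16)) (by positivity :
            (0 : ℝ) ≤ 6 ^ 12))) h4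
        ring
      · refine le_trans h5 (le_trans (mul_le_mul_of_nonneg_left h3.2 (by norm_num)) (le_of_eq ?_))
        ring
  · refine ⟨2, by norm_num, fun a b ha hb hd =>
      ⟨1 / (6 * (a : ℝ) * b) ^ 2, 2 ^ 8 * 3 ^ 5 * ((4 * a ^ 3 + 27 * b ^ 2 : ℤ) : ℝ) ^ 2, ?_, ?_, ?_⟩⟩
    · have h1 : (a : ℝ) ≠ 0 := by exact_mod_cast ha
      have h2 : (b : ℝ) ≠ 0 := by exact_mod_cast hb
      positivity
    · have h1 : ((4 * a ^ 3 + 27 * b ^ 2 : ℤ) : ℝ) ≠ 0 := by exact_mod_cast hd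
      positivity
    · intro D n q hD h hq
      obtain ⟨h4, h5⟩ := hI q hq
      have h6 := cond_upper hd hD.ne_zero h hq.1
      have h7 := cond_lower ha hb hD h hq.1
      have h1 : (a : ℝ) ≠ 0 := by exact_mod_cast ha
      have h2 : (b : ℝ) ≠ 0 := by exact_mod_cast hb
      have h8 : (0 : ℝ) < (6 * (a : ℝ) * b) ^ 2 := by positivity
      constructor
      · refine le_trans ?_ h4
        rw [div_mul_eq_mul_div, one_mul, div_le_iff₀ h8]
        linarith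
      · nlinarith

end

end Pool.Agent.Q161.ESG.JI
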