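import Pool.Agent.Q161.ESG.JInv2

/-! # The elliptic curves with given j-invariants: the moments of the rank -/

set_option autoImplicit false

namespace Pool.Agent.Q161.ESG.JI

open Finset

open Pool.Agent.Q161.EA (twists)

/-- the elliptic curves `E` over `ℚ` with `j(E) ∈ J` and `I(E) ≤ X` -/
def Fam (I : ℤ × ℤ → ℝ) (J : Finset ℚ) (X : ℝ) : Set (ℤ × ℤ) :=
  {q | Minimal q ∧ jinv q ∈ J ∧ I q ≤ X}

/-- the curves `y² = x³ + A x + B` with `j`-invariant in `J` have `A ≠ 0`, `B ≠ 0` (so `0` and `1728` are not in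
`J`) and no rational points of order two -/
def Admissible (J : Finset ℚ) : Prop := ∀ q : ℤ × ℤ, Disc q ≠ 0 → jinv q ∈ J →
  q.1 ≠ 0 ∧ q.2 ≠ 0 ∧ ∀ x : ℚ, x ^ 3 + (q.1 : ℚ) * x + (q.2 : ℚ) ≠ 0

theorem jinv_eq {q q' : ℤ × ℤ} (h : Disc q ≠ 0) (h' : Disc q' ≠ 0) (hj : jinv q = jinv q') :
    q.1 ^ 3 * q'.2 ^ 2 = q'.1 ^ 3 * q.2 ^ 2 := by
  unfold jinv at hj
  have h1 : (Disc q : ℚ) ≠ 0 := by exact_mod_cast h
  have h2 : (Disc q' : ℚ) ≠ 0 := by exact_mod_cast h'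
  rw [div_eq_div_iff h1 h2] at hj
  have h3 : (q.1 : ℚ) ^ 3 * q'.2 ^ 2 = q'.1 ^ 3 * q.2 ^ 2 := by
    unfold Disc at hj
    push_cast at hj
    have h4 : (1728 * 4 * 27 : ℚ) * ((q.1 : ℚ) ^ 3 * q'.2 ^ 2) = (1728 * 4 * 27 : ℚ) * (q'.1 ^ 3 * q.2 ^ 2) := by
      linear_combination hj
    exact mul_left_cancel₀ (by norm_num) h4
  exact_mod_cast h3

theorem eq_jinv {q q' : ℤ × ℤ} (h : Disc q ≠ 0) (h' : Disc q' ≠ 0)
    (hj : q.1 ^ 3 * q'.2 ^ 2 = q'.1 ^ 3 * q.2 ^ 2) : jinv q = jinv q' := by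
  unfold jinv
  have h1 : (Disc q : ℚ) ≠ 0 := by exact_mod_cast h
  have h2 : (Disc q' : ℚ) ≠ 0 := by exact_mod_cast h'
  have hj' : (q.1 : ℚ) ^ 3 * q'.2 ^ 2 = q'.1 ^ 3 * q.2 ^ 2 := by exact_mod_cast hj
  rw [div_eq_div_iff h1 h2]
  unfold Disc
  push_cast
  linear_combination 1728 * 4 * 27 * hj'

theorem mom_tw {a b : ℤ} (hab : ∀ x : ℚ, x ^ 3 + (a : ℚ) * x + (b : ℚ) ≠ 0) (k : ℕ) :
    ∃ C : ℝ, 0 < C ∧ ∀ X : ℝ, 1 ≤ X →
      ∑ D ∈ twists X, (2 : ℝ) ^ (k * Pool.Agent.Q161.EA.rank a b D) ≤ C * X := by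
  obtain ⟨C, hC, h2⟩ := Pool.Agent.Q161.ESM.moments (r := 1) (fun _ => a) (fun _ => b) (fun _ => hab) k
  refine ⟨C, hC, fun X hX => le_trans (sum_le_sum fun D hD => ?_) (h2 X hX)⟩
  have hD0 := Pool.Agent.Q161.EA.squarefree_of_mem hD
  rw [Finset.univ_unique, Finset.prod_singleton, mul_comm, pow_mul]
  refine pow_le_pow_left₀ (by positivity) ?_ k
  have h3 := Pool.Agent.Q161.EA.shaTwo_pos a b D (Pool.Agent.Q161.ESM.fin_sha hab hD0)
  have h4 : 2 ^ Pool.Agent.Q161.EA.rank a b D ≤ 2 ^ Pool.Agent.Q161.EA.rank a b D *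
      Nat.card (Pool.Agent.Q161.EA.ShaTwo a b D) := Nat.le_mul_of_pos_right _ h3
  exact_mod_cast h4

theorem mem_twists {X : ℝ} {D : ℤ} (hD : Squarefree D) (h : |(D : ℝ)| ≤ X) : D ∈ twists X := by
  classical
  unfold twists
  rw [mem_filter, mem_Icc]
  have h1 := abs_le.1 h
  refine ⟨⟨?_, Int.le_floor.2 h1.2⟩, hD⟩
  have h2 : -D ≤ ⌊X⌋ := Int.le_floor.2 (by push_cast; linarith [h1.1])
  omega

/-- the theorem for one `j`-invariant -/
theorem one (I : ℤ × ℤ → ℝ) (hI : Ordering I) (j : ℚ) (hJ : Admissible {j}) (k : ℕ) :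
    ∃ C : ℝ, 0 < C ∧ ∀ X : ℝ, (Fam I {j} X).Finite ∧ ∀ S : Finset (ℤ × ℤ),
      (S : Set (ℤ × ℤ)) = Fam I {j} X → ∑ q ∈ S, (2 : ℝ) ^ (k * rank q) ≤ C * S.card := by
  classical
  by_cases hne : ∃ q : ℤ × ℤ, Minimal q ∧ jinv q = j
  swap
  · refine ⟨1, one_pos, fun X => ?_⟩
    have hempty : Fam I {j} X = ∅ := by
      ext q
      constructor
      · rintro ⟨h1, h2, -⟩
        exact hne ⟨q, h1, mem_singleton.1 h2⟩
      · intro h
        exact absurd h (Set.notMem_empty q)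
    rw [hempty]
    refine ⟨Set.finite_empty, fun S hS => ?_⟩
    have : S = ∅ := by
      rw [← coe_eq_empty]
      exact hS
    rw [this]
    simp
  obtain ⟨⟨a, b⟩, hmin0, hj0⟩ := hne
  obtain ⟨ha, hb, hirr⟩ := hJ (a, b) hmin0.1 (by rw [hj0]; exact mem_singleton_self j)
  have ha' : a ≠ 0 := ha
  have hb' : b ≠ 0 := hb
  have hd : 4 * a ^ 3 + 27 * b ^ 2 ≠ 0 := hmin0.1
  obtain ⟨κ, hκ, hord⟩ := ord_bounds I hI
  obtain ⟨c1, c2, hc1, hc2, hb12⟩ := hord a b ha' hb' hd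
  obtain ⟨C0, hC0, hmom⟩ := mom_tw hirr k
  obtain ⟨X0, hX0⟩ := Pool.Agent.Q161.OD.sqf_lower
  -- the parameter
  have hpar : ∀ q : ℤ × ℤ, ∃ (D : ℤ) (n : ℕ), Minimal q ∧ jinv q = j → Squarefree D ∧ Mod a b D n q := by
    intro q
    by_cases hq : Minimal q ∧ jinv q = j
    · obtain ⟨h1, h2, -⟩ := hJ q hq.1.1 (by rw [hq.2]; exact mem_singleton_self j)
      obtain ⟨D, n, h3, h4⟩ := exists_par' ha' hb' hd hq.1 h1 h2
        (jinv_eq hq.1.1 hmin0.1 (hq.2.trans hj0.symm))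
      exact ⟨D, n, fun _ => ⟨h3, h4⟩⟩
    · exact ⟨0, 0, fun h => absurd h hq⟩
  choose par nn hpn using hpar
  have hinj : ∀ q q' : ℤ × ℤ, (Minimal q ∧ jinv q = j) → (Minimal q' ∧ jinv q' = j) →
      par q = par q' → q = q' := by
    intro q q' h h' he
    obtain ⟨-, h0, h1, h2⟩ := hpn q h
    obtain ⟨-, h0', h1', h2'⟩ := hpn q' h'
    refine uniq h.1 h'.1 (m := nn q) (n := nn q') h0 h0' ?_ ?_
    · rw [h1, h1', he]
    · rw [h2, h2', he]
  -- the models of the twists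
  have hmod : ∀ D : ℤ, ∃ (n : ℕ) (q : ℤ × ℤ), Squarefree D → Mod a b D n q ∧ Minimal q ∧ jinv q = j := by
    intro D
    by_cases hD : Squarefree D
    · obtain ⟨n, q, h1, h2⟩ := exists_mod ha' hd hD.ne_zero
      refine ⟨n, q, fun _ => ⟨h1, h2, ?_⟩⟩
      rw [← hj0]
      refine eq_jinv h2.1 hmin0.1 ?_
      obtain ⟨h0, e1, e2⟩ := h1
      have hn0 : (n : ℤ) ^ 12 ≠ 0 := pow_ne_zero 12 (by exact_mod_cast h0.ne')
      apply mul_left_cancel₀ hn0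
      change (n : ℤ) ^ 12 * (q.1 ^ 3 * b ^ 2) = (n : ℤ) ^ 12 * (a ^ 3 * q.2 ^ 2)
      calc (n : ℤ) ^ 12 * (q.1 ^ 3 * b ^ 2) = ((n : ℤ) ^ 4 * q.1) ^ 3 * b ^ 2 := by ring
        _ = ((n : ℤ) ^ 6 * q.2) ^ 2 * a ^ 3 := by rw [e1, e2]; ring
        _ = _ := by ring
    · exact ⟨0, 0, fun h => absurd h hD⟩
  choose mn mq hmq using hmod
  set R : ℝ := (c2 / c1) ^ ((1 : ℝ) / κ) with hR
  have hR0 : 0 < R := Real.rpow_pos_of_pos (div_pos hc2 hc1) _
  have hκ' : (κ : ℝ) ≠ 0 := by exact_mod_cast hκ.ne'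
  have hroot : ∀ {x y : ℝ}, 0 ≤ x → 0 ≤ y → x ^ κ ≤ y → x ≤ y ^ ((1 : ℝ) / κ) := by
    intro x y hx hy h
    have h1 := Real.rpow_le_rpow (by positivity) h (by positivity : (0 : ℝ) ≤ 1 / κ)
    rwa [← Real.rpow_natCast, ← Real.rpow_mul hx, mul_one_div_cancel hκ', Real.rpow_one] at h1
  have hroot' : ∀ {x y : ℝ}, 0 ≤ x → 0 ≤ y → x ≤ y ^ ((1 : ℝ) / κ) → x ^ κ ≤ y := by
    intro x y hx hy h
    have h1 := pow_le_pow_left₀ hx h κ
    rwa [← Real.rpow_natCast (y ^ ((1 : ℝ) / κ)), ← Real.rpow_mul hy, one_div_mul_cancel hκ',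
      Real.rpow_one] at h1
  refine ⟨C0 * R * max 40 (max X0 1), by positivity, fun X => ?_⟩
  -- bounds for the parameters
  set Y : ℝ := (X / c1) ^ ((1 : ℝ) / κ) with hY
  set Y' : ℝ := (X / c2) ^ ((1 : ℝ) / κ) with hY'
  have hup : ∀ q ∈ Fam I {j} X, 0 < X ∧ par q ∈ twists Y := by
    rintro q ⟨h1, h2, h3⟩
    obtain ⟨h4, h5⟩ := hpn q ⟨h1, mem_singleton.1 h2⟩
    have h6 := (hb12 _ _ _ h4 h5 h1).1
    have h7 : (1 : ℝ) ≤ |(par q : ℝ)| := by exact_mod_cast Int.one_le_abs h4.ne_zero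
    have h8 : (1 : ℝ) ≤ |(par q : ℝ)| ^ κ := one_le_pow₀ h7
    have hX : 0 < X := by nlinarith
    refine ⟨hX, mem_twists h4 (hroot (abs_nonneg _) (by positivity) ?_)⟩
    rw [le_div_iff₀ hc1]
    linarith
  have hfin : (Fam I {j} X).Finite := by
    refine Set.Finite.of_finite_image (f := par) (Set.Finite.subset (twists Y).finite_toSet ?_) ?_
    · rintro _ ⟨q, hq, rfl⟩
      exact (hup q hq).2
    · intro q hq q' hq' he
      exact hinj q q' ⟨hq.1, mem_singleton.1 hq.2.1⟩ ⟨hq'.1, mem_singleton.1 hq'.2.1⟩ he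
  refine ⟨hfin, fun S hS => ?_⟩
  have hmem : ∀ q ∈ S, q ∈ Fam I {j} X := fun q hq => by
    rw [← hS]
    exact mem_coe.2 hq
  rcases S.eq_empty_or_nonempty with rfl | ⟨q0, hq0⟩
  · simp
  have hX : 0 < X := (hup q0 (hmem q0 hq0)).1
  have hYpos : 0 < Y := Real.rpow_pos_of_pos (div_pos hX hc1) _
  have hYpos' : 0 < Y' := Real.rpow_pos_of_pos (div_pos hX hc2) _
  have hYY : Y = R * Y' := by
    rw [hY, hR, hY', ← Real.mul_rpow (by positivity) (by positivity)]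
    congr 1
    field_simp
  have hY1 : 1 ≤ Y := by
    have h1 := (hup q0 (hmem q0 hq0)).2
    have h4 := Pool.Agent.Q161.EA.squarefree_of_mem h1
    have h7 : (1 : ℝ) ≤ |(par q0 : ℝ)| := by exact_mod_cast Int.one_le_abs h4.ne_zero
    have hfam := hmem q0 hq0
    obtain ⟨h8, h9⟩ := hpn q0 ⟨hfam.1, mem_singleton.1 hfam.2.1⟩
    have h6 := (hb12 _ _ _ h8 h9 hfam.1).1
    refine le_trans h7 (hroot (abs_nonneg _) (by positivity) ?_)
    rw [le_div_iff₀ hc1]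
    linarith [hfam.2.2]
  -- the upper bound
  have hsum : ∑ q ∈ S, (2 : ℝ) ^ (k * rank q) ≤ C0 * Y := by
    refine le_trans ?_ (hmom Y hY1)
    have e1 : ∑ q ∈ S, (2 : ℝ) ^ (k * rank q) =
        ∑ D ∈ S.image par, (2 : ℝ) ^ (k * Pool.Agent.Q161.EA.rank a b D) := by
      rw [sum_image]
      · refine sum_congr rfl fun q hq => ?_
        have hfam := hmem q hq
        rw [rank_mod (hpn q ⟨hfam.1, mem_singleton.1 hfam.2.1⟩).2 hfam.1.1]
      · intro q hq q' hq' he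
        have hfam := hmem q hq
        have hfam' := hmem q' hq'
        exact hinj q q' ⟨hfam.1, mem_singleton.1 hfam.2.1⟩ ⟨hfam'.1, mem_singleton.1 hfam'.2.1⟩ he
    rw [e1]
    refine sum_le_sum_of_subset_of_nonneg ?_ fun _ _ _ => by positivity
    intro D hD
    obtain ⟨q, hq, rfl⟩ := mem_image.1 hD
    exact (hup q (hmem q hq)).2
  -- the lower bound
  have hS1 : (1 : ℝ) ≤ S.card := by exact_mod_cast card_pos.2 ⟨q0, hq0⟩
  have hYS : Y' ≤ max 40 (max X0 1) * S.card := by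
    by_cases hlarge : X0 ≤ Y'
    · have h1 := hX0 Y' hlarge
      have h2 : {D : ℤ | (D.natAbs : ℝ) ≤ Y' ∧ Squarefree D}.ncard ≤ S.card := by
        rw [← Set.ncard_coe_finset S, hS]
        refine Set.ncard_le_ncard_of_injOn (fun D => mq D) ?_ ?_ hfin
        · rintro D ⟨h3, h4⟩
          obtain ⟨h5, h6, h7⟩ := hmq D h4
          refine ⟨h6, by rw [h7]; exact mem_singleton_self j, ?_⟩
          refine le_trans (hb12 _ _ _ h4 h5 h6).2 ?_
          have h8 : |(D : ℝ)| ≤ Y' := by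
            have : ((D.natAbs : ℕ) : ℝ) = |(D : ℝ)| := by
              rw [Nat.cast_natAbs]
              push_cast
              rfl
            rwa [this] at h3
          have h9 := hroot' (abs_nonneg _) (by positivity) h8
          rw [le_div_iff₀ hc2] at h9
          linarith
        · rintro D ⟨-, h4⟩ D' ⟨-, h4'⟩ he
          have he' : mq D = mq D' := he
          have h5 := (hmq D h4).1
          have h5' := (hmq D' h4').1
          rw [← he'] at h5'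
          exact mod_inj ha' hb' h4 h4' h5 h5'
      have h3 : (({D : ℤ | (D.natAbs : ℝ) ≤ Y' ∧ Squarefree D}.ncard : ℕ) : ℝ) ≤ S.card := by
        exact_mod_cast h2
      have h4 : (40 : ℝ) ≤ max 40 (max X0 1) := le_max_left _ _
      nlinarith
    · push Not at hlarge
      have h4 : X0 ≤ max 40 (max X0 1) := le_trans (le_max_left _ _) (le_max_right _ _)
      have h5 : (0 : ℝ) ≤ max 40 (max X0 1) := le_trans (by norm_num) (le_max_left _ _)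
      nlinarith
  calc ∑ q ∈ S, (2 : ℝ) ^ (k * rank q) ≤ C0 * Y := hsum
    _ = C0 * R * Y' := by rw [hYY]; ring
    _ ≤ C0 * R * (max 40 (max X0 1) * S.card) := mul_le_mul_of_nonneg_left hYS (by positivity)
    _ = _ := by ring

/-- the theorem for a finite set of `j`-invariants -/
theorem fin (I : ℤ × ℤ → ℝ) (hI : Ordering I) (J : Finset ℚ) (hJ : Admissible J) (k : ℕ) :
    ∃ C : ℝ, 0 < C ∧ ∀ X : ℝ, ∃ S : Finset (ℤ × ℤ),
      (S : Set (ℤ × ℤ)) = Fam I J X ∧ ∑ q ∈ S, (2 : ℝ) ^ (k * rank q) ≤ C * S.card := by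
  classical
  have hone : ∀ j : ℚ, ∃ C : ℝ, 0 < C ∧ (j ∈ J → ∀ X : ℝ, (Fam I {j} X).Finite ∧
      ∀ S : Finset (ℤ × ℤ), (S : Set (ℤ × ℤ)) = Fam I {j} X →
        ∑ q ∈ S, (2 : ℝ) ^ (k * rank q) ≤ C * S.card) := by
    intro j
    by_cases hj : j ∈ J
    · obtain ⟨C, hC, h⟩ := one I hI j (fun q h1 h2 => hJ q h1 (by
        rw [mem_singleton.1 h2]
        exact hj)) k
      exact ⟨C, hC, fun _ => h⟩
    · exact ⟨1, one_pos, fun h => absurd h hj⟩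
  choose C hC hmain using hone
  refine ⟨1 + ∑ j ∈ J, C j, by
    have := sum_nonneg fun j (_ : j ∈ J) => (hC j).le
    linarith, fun X => ?_⟩
  have hfin : (Fam I J X).Finite := by
    have : Fam I J X ⊆ ⋃ j ∈ J, Fam I {j} X := by
      rintro q ⟨h1, h2, h3⟩
      exact Set.mem_biUnion h2 ⟨h1, mem_singleton_self _, h3⟩
    exact Set.Finite.subset (Set.Finite.biUnion J.finite_toSet fun j hj => (hmain j hj X).1) this
  refine ⟨hfin.toFinset, hfin.coe_toFinset, ?_⟩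
  set S := hfin.toFinset with hSdef
  have hmaps : ∀ q ∈ S, jinv q ∈ J := fun q hq => ((hfin.mem_toFinset).1 hq).2.1
  have hfib := sum_fiberwise_of_maps_to hmaps (fun q => (2 : ℝ) ^ (k * rank q))
  rw [← hfib]
  have hle : ∀ j ∈ J, ∑ q ∈ S.filter (fun q => jinv q = j), (2 : ℝ) ^ (k * rank q) ≤
      C j * S.card := by
    intro j hj
    have h1 := (hmain j hj X).2 (S.filter (fun q => jinv q = j)) (by
      ext q
      rw [mem_coe, mem_filter, hfin.mem_toFinset]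
      constructor
      · rintro ⟨⟨h1, -, h3⟩, h4⟩
        exact ⟨h1, mem_singleton.2 h4, h3⟩
      · rintro ⟨h1, h2, h3⟩
        have h4 := mem_singleton.1 h2
        exact ⟨⟨h1, by rw [h4]; exact hj, h3⟩, h4⟩)
    refine h1.trans (mul_le_mul_of_nonneg_left ?_ (hC j).le)
    exact_mod_cast card_filter_le _ _
  refine le_trans (sum_le_sum hle) ?_
  rw [← sum_mul]
  refine mul_le_mul_of_nonneg_right ?_ (Nat.cast_nonneg _)
  linarith

/-- the `j`-invariants of the curves `y² = x³ + a x + b`, `a ≠ 0`, `b ≠ 0`, without rational points of order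
two are admissible -/
theorem adm_of {J : Finset ℚ} (h : ∀ j ∈ J, ∃ q : ℤ × ℤ, Disc q ≠ 0 ∧ jinv q = j ∧ q.1 ≠ 0 ∧ q.2 ≠ 0 ∧
    ∀ x : ℚ, x ^ 3 + (q.1 : ℚ) * x + (q.2 : ℚ) ≠ 0) : Admissible J := by
  intro q hq hj
  obtain ⟨⟨a, b⟩, hd, hj', ha, hb, hx⟩ := h _ hj
  have e := jinv_eq hq hd hj'.symm
  change q.1 ^ 3 * b ^ 2 = a ^ 3 * q.2 ^ 2 at e
  change a ≠ 0 at ha
  change b ≠ 0 at hb
  have h1 : q.1 ≠ 0 := by
    intro h0
    rw [h0, zero_pow three_ne_zero, zero_mul] at e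
    have h2 : q.2 = 0 := by
      rcases mul_eq_zero.1 e.symm with h3 | h3
      · exact absurd h3 (pow_ne_zero 3 ha)
      · exact pow_eq_zero_iff two_ne_zero |>.1 h3
    apply hq
    unfold Disc
    rw [h0, h2]
    norm_num
  have h2 : q.2 ≠ 0 := by
    intro h0
    rw [h0, zero_pow two_ne_zero, mul_zero] at e
    rcases mul_eq_zero.1 e with h3 | h3
    · exact h1 (pow_eq_zero_iff three_ne_zero |>.1 h3)
    · exact pow_ne_zero 2 hb h3
  refine ⟨h1, h2, fun x hx0 => ?_⟩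
  have e' : (q.1 : ℚ) ^ 3 * (b : ℚ) ^ 2 = (a : ℚ) ^ 3 * (q.2 : ℚ) ^ 2 := by exact_mod_cast e
  have ha' : (a : ℚ) ≠ 0 := by exact_mod_cast ha
  have hb' : (b : ℚ) ≠ 0 := by exact_mod_cast hb
  have h1' : (q.1 : ℚ) ≠ 0 := by exact_mod_cast h1
  have h2' : (q.2 : ℚ) ≠ 0 := by exact_mod_cast h2
  apply hx (x * (q.1 * b) / (q.2 * a))
  change (x * ((q.1 : ℚ) * b) / (q.2 * a)) ^ 3 + (a : ℚ) * (x * (q.1 * b) / (q.2 * a)) + (b : ℚ) = 0
  have e1 : (q.1 : ℚ) ^ 3 = (a : ℚ) ^ 3 * (q.2 : ℚ) ^ 2 / (b : ℚ) ^ 2 := by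
    rw [eq_div_iff (pow_ne_zero 2 hb')]
    exact e'
  have e2 : (x * ((q.1 : ℚ) * b) / (q.2 * a)) ^ 3 = b * x ^ 3 / q.2 := by
    rw [div_pow, mul_pow, mul_pow, e1]
    field_simp
  have e3 : (a : ℚ) * (x * (q.1 * b) / (q.2 * a)) = b * (q.1 * x) / q.2 := by
    field_simp
  rw [e2, e3]
  have e4 : (b : ℚ) * x ^ 3 / q.2 + b * (q.1 * x) / q.2 + b = b / q.2 * (x ^ 3 + q.1 * x + q.2) := by
    field_simp
  rw [e4, hx0, mul_zero]

end Pool.Agent.Q161.ESG.JI
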