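import Pool.Agent.Q161.ESG.GoalJ
import Pool.Agent.Q161.ESM.Cor

/-! # Project ESG: corollaries for Jacobians -/

set_option autoImplicit false

namespace Pool.Agent.Q161.ESG

open Polynomial NumberField Finset

open Pool.Agent.Q161.EA (twists)
open Pool.Agent.Q161.ESM

/-- an elementary abelian 2-group -/
theorem two_pow {A : Type} [AddCommGroup A] [Finite A] (h : ∀ a : A, a + a = 0) :
    Nat.card A = 2 ^ Nat.log 2 (Nat.card A) := by
  letI : Module (ZMod 2) A := AddCommGroup.zmodModule (n := 2) (fun x => by rw [two_nsmul, h])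
  have h1 : Nat.card A = 2 ^ Module.finrank (ZMod 2) A := by
    rw [Module.natCard_eq_pow_finrank (K := ZMod 2) (V := A), Nat.card_zmod]
  rw [h1, Nat.log_pow (by norm_num)]

theorem rank_aux {A T : Type} [AddCommGroup A] [AddCommGroup T] (q : A →+ T) (hq : Function.Surjective q)
    {r : ℕ} (b : Module.Basis (Fin r) ℤ T)
    (hf : Finite (A ⧸ (nsmulAddMonoidHom 2 : A →+ A).range)) :
    2 ^ r ≤ Nat.card (A ⧸ (nsmulAddMonoidHom 2 : A →+ A).range) := by
  let φ : A →+ (Fin r → ZMod 2) :=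
    AddMonoidHom.mk' (fun a i => ((b.repr (q a) i : ℤ) : ZMod 2)) (by
      intro x y
      funext i
      simp only [map_add, Finsupp.add_apply, Int.cast_add, Pi.add_apply])
  have hφ : Function.Surjective φ := by
    intro v
    obtain ⟨a, ha⟩ := hq (∑ i, ((v i).val : ℤ) • b i)
    refine ⟨a, ?_⟩
    funext i
    change ((b.repr (q a) i : ℤ) : ZMod 2) = v i
    rw [ha, Module.Basis.repr_sum_self]
    simp
  have hker : (nsmulAddMonoidHom 2 : A →+ A).range ≤ φ.ker := by
    rintro x ⟨y, rfl⟩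
    rw [AddMonoidHom.mem_ker]
    change φ (2 • y) = 0
    rw [map_nsmul, two_nsmul]
    funext i
    exact CharTwo.add_self_eq_zero _
  let ψ : A ⧸ (nsmulAddMonoidHom 2 : A →+ A).range →+ (Fin r → ZMod 2) :=
    QuotientAddGroup.lift _ φ hker
  have hψ : Function.Surjective ψ := by
    intro v
    obtain ⟨a, ha⟩ := hφ v
    exact ⟨QuotientAddGroup.mk a, ha⟩
  have h1 := Nat.card_le_card_of_surjective ψ hψ
  simpa using h1

/-- the rank is at most the dimension of `A / 2 A` -/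
theorem rank_le {A : Type} [AddCommGroup A] (hA : AddGroup.FG A)
    (hf : Finite (A ⧸ (nsmulAddMonoidHom 2 : A →+ A).range)) :
    2 ^ Module.finrank ℤ A ≤ Nat.card (A ⧸ (nsmulAddMonoidHom 2 : A →+ A).range) := by
  have hfin : Module.Finite ℤ A := Module.Finite.iff_addGroup_fg.2 hA
  have hfree : Module.Free ℤ (A ⧸ Submodule.torsion ℤ A) := Module.free_of_finite_type_torsion_free'
  have h0 : Module.finrank ℤ (Submodule.torsion ℤ A) = 0 :=
    Module.finrank_eq_zero_iff_isTorsion.2 Submodule.torsion_isTorsion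
  have hr : Module.finrank ℤ (A ⧸ Submodule.torsion ℤ A) = Module.finrank ℤ A := by
    have := Submodule.finrank_quotient_add_finrank (Submodule.torsion ℤ A)
    omega
  exact rank_aux (Submodule.mkQ (Submodule.torsion ℤ A)).toAddMonoidHom
    (Submodule.mkQ_surjective _) (Module.finBasisOfFinrankEq ℤ _ hr) hf

/-- the joint moments of the groups `J(ℚ)/2` and `Ш[2]` -/
theorem j_moments (hSG : S_SGP) {r : ℕ} (H : Fin r → HP)
    (h : ∀ i, Irreducible ((H i).pol.map (Int.castRingHom ℚ))) (hss : ∀ i, SemisimpleTwo (H i)) (k : ℕ) :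
    ∃ C : ℝ, 0 < C ∧ ∀ X : ℝ, 1 ≤ X →
      (∑ D ∈ twists X, ∏ i, ((Nat.card (QuotQ ((H i).twist D) 2) *
        Nat.card (ShaTorsion ((H i).twist D) 2) : ℕ) : ℝ) ^ k) ≤ C * X := by
  obtain ⟨C, hC, h2⟩ := goalJ hSG (Fin r × Fin k) (fun j => H j.1) (fun j => h j.1) (fun j => hss j.1)
  refine ⟨C, hC, fun X hX => ?_⟩
  have h3 := h2 X hX
  rw [Nat.cast_sum] at h3
  refine le_trans (Finset.sum_le_sum fun D hD => ?_) h3
  have hD0 : Squarefree D := Pool.Agent.Q161.EA.squarefree_of_mem hD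
  rw [Fintype.prod_prod_type, Nat.cast_prod]
  refine Finset.prod_le_prod (fun i _ => by positivity) fun i _ => ?_
  simp only [Finset.prod_const, Finset.card_univ, Fintype.card_fin, Nat.cast_pow]
  refine pow_le_pow_left₀ (Nat.cast_nonneg _) ?_ k
  exact_mod_cast (grp_le hSG (H i) (h i) (hss i) D hD0).2.2

/-- both orders are positive -/
theorem j_pos (hSG : S_SGP) (H : HP) (h : Irreducible (H.pol.map (Int.castRingHom ℚ)))
    (hss : SemisimpleTwo H) (D : ℤ) (hD : Squarefree D) :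
    0 < Nat.card (QuotQ (H.twist D) 2) ∧ 0 < Nat.card (ShaTorsion (H.twist D) 2) := by
  obtain ⟨h1, h2, -⟩ := grp_le hSG H h hss D hD
  refine ⟨?_, ?_⟩
  · exact @Nat.card_pos _ (show Nonempty (JacQ (H.twist D) ⧸
      (nsmulAddMonoidHom 2 : JacQ (H.twist D) →+ JacQ (H.twist D)).range) from ⟨0⟩) h1
  · exact @Nat.card_pos _ ⟨⟨0, nsmul_zero 2⟩⟩ h2

/-- `J(ℚ)/2` is an elementary abelian 2-group, and its dimension is at least the rank -/
theorem j_quot (hSG : S_SGP) (H : HP) (h : Irreducible (H.pol.map (Int.castRingHom ℚ)))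
    (hss : SemisimpleTwo H) (D : ℤ) (hD : Squarefree D) :
    Nat.card (QuotQ (H.twist D) 2) = 2 ^ Nat.log 2 (Nat.card (QuotQ (H.twist D) 2)) ∧
      (AddGroup.FG (JacQ (H.twist D)) →
        Module.finrank ℤ (JacQ (H.twist D)) ≤ Nat.log 2 (Nat.card (QuotQ (H.twist D) 2))) := by
  obtain ⟨h1, -, -⟩ := grp_le hSG H h hss D hD
  have h1' : Finite (JacQ (H.twist D) ⧸
    (nsmulAddMonoidHom 2 : JacQ (H.twist D) →+ JacQ (H.twist D)).range) := h1
  have h3 : Nat.card (QuotQ (H.twist D) 2) = 2 ^ Nat.log 2 (Nat.card (QuotQ (H.twist D) 2)) := by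
    refine two_pow (A := JacQ (H.twist D) ⧸
      (nsmulAddMonoidHom 2 : JacQ (H.twist D) →+ JacQ (H.twist D)).range) fun a => ?_
    induction a using QuotientAddGroup.induction_on with
    | H a =>
      rw [← QuotientAddGroup.mk_add, QuotientAddGroup.eq_zero_iff]
      exact ⟨a, two_nsmul a⟩
  refine ⟨h3, fun hFG => ?_⟩
  have h4 : 2 ^ Module.finrank ℤ (JacQ (H.twist D)) ≤ Nat.card (QuotQ (H.twist D) 2) := rank_le hFG h1'
  exact Nat.le_log_of_pow_le (by norm_num) h4

end Pool.Agent.Q161.ESG
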